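import Pool.Agent.Helper976_Stamp.Part1

/-!
# Closed meanders: arch systems, connectivity, uniqueness of cut intervals
-/

namespace Pool.Agent.Helper976.Meander

open Finset

/-- A non-crossing perfect matching of `{0, ..., 2 n - 1}`, as a map with `σ i` the partner of `i`
(and `σ i = i` for `i ≥ 2 n`). -/
structure Arch (n : ℕ) (σ : ℕ → ℕ) : Prop where
  lt : ∀ i, i < 2 * n → σ i < 2 * n
  ne : ∀ i, i < 2 * n → σ i ≠ i
  inv : ∀ i, i < 2 * n → σ (σ i) = i
  nc : ∀ i j, i < 2 * n → j < 2 * n → i < j → j < σ i → σ i < σ j → False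
  out : ∀ i, 2 * n ≤ i → σ i = i

/-- The union of the two matchings is connected: no proper nonempty set of points is closed. -/
def Conn (n : ℕ) (σ τ : ℕ → ℕ) : Prop :=
  ∀ S : Finset ℕ, (∀ i ∈ S, i < 2 * n ∧ σ i ∈ S ∧ τ i ∈ S) → S = ∅ ∨ S = range (2 * n)

theorem Arch.toNC {n : ℕ} {σ : ℕ → ℕ} (h : Arch n σ) : Stamp.NC (2 * n) σ :=
  ⟨h.lt, h.inv, h.nc⟩

theorem Arch.inside {n : ℕ} {σ : ℕ → ℕ} (h : Arch n σ) {i k : ℕ} (hi : i < 2 * n) (hik : i < k)
    (hk : k < σ i) : i < σ k ∧ σ k < σ i := h.toNC.inside hi hik hk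

theorem even_card_of_involution (S : Finset ℕ) (f : ℕ → ℕ)
    (h : ∀ i ∈ S, f i ∈ S ∧ f i ≠ i ∧ f (f i) = i) : Even S.card := by
  have h1 : ∑ _i ∈ S, (1 : ZMod 2) = 0 := by
    refine Finset.sum_involution (fun i _ => f i) ?_ ?_ ?_ ?_
    · intro a _; decide
    · intro a ha _; exact (h a ha).2.1
    · intro a ha; exact (h a ha).1
    · intro a ha; exact (h a ha).2.2
  rw [Finset.sum_const, nsmul_eq_mul, mul_one] at h1
  exact (ZMod.natCast_eq_zero_iff_even).1 h1

/-- `[x, d]` is a cut interval: closed under `τ`, and all arcs of `σ` at `[x, d]` are inside except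
`(d, d + 1)` and one arc `(c, b)` with `b > d + 1`. -/
def Cut (N : ℕ) (σ τ : ℕ → ℕ) (x d : ℕ) : Prop :=
  x < d ∧ d + 1 < 2 * N ∧ (∀ i, x ≤ i → i ≤ d → x ≤ τ i ∧ τ i ≤ d) ∧ σ d = d + 1 ∧
    ∃ c, x ≤ c ∧ c < d ∧ d + 1 < σ c ∧ ∀ i, x ≤ i → i < d → i ≠ c → x ≤ σ i ∧ σ i < d

theorem cut_unique_aux {N : ℕ} {σ τ : ℕ → ℕ} (hσ : Arch N σ) (hc : Conn N σ τ) (hτ : Arch N τ)
    {x x' d : ℕ} (h : Cut N σ τ x d) (h' : Cut N σ τ x' d) (hx : x < x') : False := by
  obtain ⟨h1, h2, h3, h4, c, hc1, hc2, hc3, hc4⟩ := h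
  obtain ⟨k1, k2, k3, k4, c', kc1, kc2, kc3, kc4⟩ := h'
  have hcc : c' = c := by
    by_contra hne
    have := hc4 c' (by omega) kc2 hne
    omega
  subst hcc
  have key := hc (Ico x x') (by
    intro i hi
    have hi' := mem_Ico.1 hi
    have hiN : i < 2 * N := by omega
    refine ⟨hiN, ?_, ?_⟩
    · have a1 := hc4 i hi'.1 (by omega) (by omega)
      refine mem_Ico.2 ⟨a1.1, ?_⟩
      by_contra hge
      have hinv := hσ.inv i hiN
      by_cases he : σ i = c'
      · rw [he] at hinv; omega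
      · have := kc4 (σ i) (by omega) a1.2 he
        omega
    · have a1 := h3 i hi'.1 (by omega)
      refine mem_Ico.2 ⟨a1.1, ?_⟩
      by_contra hge
      have hinv := hτ.inv i hiN
      have := k3 (τ i) (by omega) a1.2
      omega)
  rcases key with hk | hk
  · have : x ∈ Ico x x' := mem_Ico.2 ⟨le_rfl, hx⟩
    rw [hk] at this
    simp at this
  · have : d ∈ Ico x x' := by rw [hk]; exact mem_range.2 (by omega)
    have := mem_Ico.1 this
    omega

/-- two cut intervals with the same right end are equal -/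
theorem cut_unique {N : ℕ} {σ τ : ℕ → ℕ} (hσ : Arch N σ) (hτ : Arch N τ) (hc : Conn N σ τ)
    {x x' d : ℕ} (h : Cut N σ τ x d) (h' : Cut N σ τ x' d) : x = x' := by
  rcases Nat.lt_trichotomy x x' with hx | hx | hx
  · exact (cut_unique_aux hσ hc hτ h h' hx).elim
  · exact hx
  · exact (cut_unique_aux hσ hc hτ h' h hx).elim

theorem cut_unique_half_aux {n : ℕ} {σ τ : ℕ → ℕ} (hσ : Arch (2 * n) σ) (hτ : Arch (2 * n) τ)
    (hc : Conn (2 * n) σ τ) {x x' : ℕ} (hn : 0 < n) (h : Cut (2 * n) σ τ x (x + 2 * n - 1))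
    (h' : Cut (2 * n) σ τ x' (x' + 2 * n - 1)) (hx : x < x') : False := by
  obtain ⟨h1, h2, h3, h4, c, hc1, hc2, hc3, hc4⟩ := h
  obtain ⟨k1, k2, k3, k4, c', kc1, kc2, kc3, kc4⟩ := h'
  have hover : x' ≤ x + 2 * n - 1 := by omega
  -- closure properties of `[x, x')`
  have hτc : ∀ i ∈ Ico x x', τ i ∈ Ico x x' ∧ τ i ≠ i ∧ τ (τ i) = i := by
    intro i hi
    have hi' := mem_Ico.1 hi
    have hiN : i < 2 * (2 * n) := by omega
    have a1 := h3 i hi'.1 (by omega)
    have hinv := hτ.inv i hiN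
    refine ⟨mem_Ico.2 ⟨a1.1, ?_⟩, hτ.ne i hiN, hinv⟩
    by_contra hge
    have := k3 (τ i) (by omega) (by omega)
    omega
  have hσc : ∀ i ∈ Ico x x', i ≠ c → σ i ∈ Ico x x' := by
    intro i hi hic
    have hi' := mem_Ico.1 hi
    have hiN : i < 2 * (2 * n) := by omega
    have a1 := hc4 i hi'.1 (by omega) hic
    refine mem_Ico.2 ⟨a1.1, ?_⟩
    by_contra hge
    have hinv := hσ.inv i hiN
    by_cases he : σ i = c'
    · rw [he] at hinv; omega
    · have := kc4 (σ i) (by omega) (by omega) he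
      omega
  by_cases hcO : c ∈ Ico x x'
  · have e1 : Even (Ico x x').card := even_card_of_involution _ τ hτc
    have e2 : Even ((Ico x x').erase c).card := by
      refine even_card_of_involution _ σ ?_
      intro i hi
      have hi1 := Finset.mem_of_mem_erase hi
      have hi2 := Finset.ne_of_mem_erase hi
      have hi' := mem_Ico.1 hi1
      have hiN : i < 2 * (2 * n) := by omega
      refine ⟨Finset.mem_erase.2 ⟨?_, hσc i hi1 hi2⟩, hσ.ne i hiN, hσ.inv i hiN⟩
      intro he
      have := hσ.inv i hiN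
      rw [he] at this
      omega
    rw [Finset.card_erase_of_mem hcO] at e2
    have hpos : 0 < (Ico x x').card := Finset.card_pos.2 ⟨c, hcO⟩
    rcases e1 with ⟨r, hr⟩
    rcases e2 with ⟨s, hs⟩
    omega
  · have key := hc (Ico x x') (by
      intro i hi
      have hi' := mem_Ico.1 hi
      refine ⟨by omega, hσc i hi ?_, (hτc i hi).1⟩
      rintro rfl
      exact hcO hi)
    rcases key with hk | hk
    · have : x ∈ Ico x x' := mem_Ico.2 ⟨le_rfl, hx⟩
      rw [hk] at this
      simp at this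
    · have : x + 2 * n - 1 ∈ Ico x x' := by rw [hk]; exact mem_range.2 (by omega)
      have := mem_Ico.1 this
      omega

/-- among `4 n` points there is at most one cut interval with `2 n` points -/
theorem cut_unique_half {n : ℕ} {σ τ : ℕ → ℕ} (hσ : Arch (2 * n) σ) (hτ : Arch (2 * n) τ)
    (hc : Conn (2 * n) σ τ) {x x' : ℕ} (hn : 0 < n) (h : Cut (2 * n) σ τ x (x + 2 * n - 1))
    (h' : Cut (2 * n) σ τ x' (x' + 2 * n - 1)) : x = x' := by
  rcases Nat.lt_trichotomy x x' with hx | hx | hx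
  · exact (cut_unique_half_aux hσ hτ hc hn h h' hx).elim
  · exact hx
  · exact (cut_unique_half_aux hσ hτ hc hn h' h hx).elim

/-- the number of left ends is `n` -/
theorem Arch.card_open {n : ℕ} {σ : ℕ → ℕ} (h : Arch n σ) :
    ((range (2 * n)).filter (fun i => i < σ i)).card = n := by
  have h1 : ((range (2 * n)).filter (fun i => i < σ i)).card =
      ((range (2 * n)).filter (fun i => ¬ i < σ i)).card := by
    refine Finset.card_nbij' σ σ ?_ ?_ ?_ ?_
    · intro i hi
      have hi' : i < 2 * n ∧ i < σ i := by simpa using hi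
      have := h.inv i hi'.1
      have h2 := h.lt i hi'.1
      have : σ i < 2 * n ∧ ¬ σ i < σ (σ i) := ⟨h2, by omega⟩
      simpa using this
    · intro i hi
      have hi' : i < 2 * n ∧ ¬ i < σ i := by simpa using hi
      have := h.inv i hi'.1
      have h2 := h.lt i hi'.1
      have h3 := h.ne i hi'.1
      have : σ i < 2 * n ∧ σ i < σ (σ i) := ⟨h2, by omega⟩
      simpa using this
    · intro i hi
      have hi' : i < 2 * n ∧ i < σ i := by simpa using hi
      exact h.inv i hi'.1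
    · intro i hi
      have hi' : i < 2 * n ∧ ¬ i < σ i := by simpa using hi
      exact h.inv i hi'.1
  have h2 := Finset.card_filter_add_card_filter_not (s := range (2 * n)) (fun i => i < σ i)
  rw [card_range] at h2
  omega

/-- an arch system is determined by its left ends -/
theorem Arch.ext_open {n : ℕ} {σ σ' : ℕ → ℕ} (h : Arch n σ) (h' : Arch n σ')
    (he : (range (2 * n)).filter (fun i => i < σ i) =
      (range (2 * n)).filter (fun i => i < σ' i)) : σ = σ' := by
  have key : ∀ i, i < 2 * n → (i < σ i ↔ i < σ' i) := by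
    intro i hi
    have := Finset.ext_iff.1 he i
    simpa [hi] using this
  funext i
  by_cases hi : i < 2 * n
  · refine h.toNC.unique h'.toNC key ?_ i hi
    intro k hk
    have a1 := h.ne k hk
    have a2 := h'.ne k hk
    have := key k hk
    omega
  · rw [h.out i (by omega), h'.out i (by omega)]

end Pool.Agent.Helper976.Meander
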