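import Mathlib

/-!
# From the moment inequalities to `∑_{n ≤ K} n μ_n ≤ 4 √K`
-/

namespace Pool.Agent.Helper976.Meander

open Filter Topology Finset

/-- nonnegative and at most `2 n²` -/
def PB (u : ℕ → ℝ) : Prop := ∀ n : ℕ, 0 ≤ u n ∧ u n ≤ 2 * (n : ℝ) ^ 2

/-- generating function -/
noncomputable def gen (u : ℕ → ℝ) (t : ℝ) : ℝ := ∑' n, u n * t ^ n

theorem PB.summable {u : ℕ → ℝ} (h : PB u) {t : ℝ} (h0 : 0 ≤ t) (h1 : t < 1) :
    Summable (fun n => u n * t ^ n) := by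
  have hn : ‖t‖ < 1 := by
    rw [Real.norm_eq_abs, abs_of_nonneg h0]; exact h1
  have hs0 : Summable (fun n : ℕ => (n : ℝ) ^ 2 * t ^ n) :=
    summable_pow_mul_geometric_of_norm_lt_one (R := ℝ) 2 hn
  have hs : Summable (fun n : ℕ => 2 * ((n : ℝ) ^ 2 * t ^ n)) := hs0.mul_left 2
  have hle : ∀ n : ℕ, u n * t ^ n ≤ 2 * ((n : ℝ) ^ 2 * t ^ n) := by
    intro n
    have h2 := (h n).2
    have h3 : 0 ≤ t ^ n := pow_nonneg h0 n
    calc u n * t ^ n ≤ (2 * (n : ℝ) ^ 2) * t ^ n := mul_le_mul_of_nonneg_right h2 h3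
      _ = 2 * ((n : ℝ) ^ 2 * t ^ n) := by ring
  exact Summable.of_nonneg_of_le (fun n => mul_nonneg (h n).1 (pow_nonneg h0 n)) hle hs

theorem PB.summable_norm {u : ℕ → ℝ} (h : PB u) {t : ℝ} (h0 : 0 ≤ t) (h1 : t < 1) :
    Summable (fun n => ‖u n * t ^ n‖) := by
  refine (h.summable h0 h1).congr fun n => ?_
  rw [Real.norm_eq_abs, abs_of_nonneg (mul_nonneg (h n).1 (pow_nonneg h0 n))]

/-- the convolution without end terms -/
noncomputable def cv (u v : ℕ → ℝ) (N : ℕ) : ℝ := ∑ b ∈ Ico 1 N, u (N - b) * v b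

theorem PB.zero {u : ℕ → ℝ} (h : PB u) : u 0 = 0 := by
  have := h 0
  simp at this
  linarith

theorem antidiag {u v : ℕ → ℝ} (hu : PB u) (hv : PB v) (t : ℝ) (N : ℕ) :
    ∑ p ∈ antidiagonal N, (v p.1 * t ^ p.1) * (u p.2 * t ^ p.2) = cv u v N * t ^ N := by
  rw [Finset.Nat.sum_antidiagonal_eq_sum_range_succ (fun i j => (v i * t ^ i) * (u j * t ^ j))]
  unfold cv
  rw [Finset.sum_mul, Finset.range_eq_Ico]
  have h1 : ∑ k ∈ Ico 1 N, v k * t ^ k * (u (N - k) * t ^ (N - k)) =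
      ∑ b ∈ Ico 1 N, u (N - b) * v b * t ^ N := by
    refine Finset.sum_congr rfl ?_
    intro b hb
    have hb' := Finset.mem_Ico.1 hb
    have : t ^ N = t ^ b * t ^ (N - b) := by rw [← pow_add]; congr 1; omega
    rw [this]; ring
  rw [← h1]
  symm
  refine Finset.sum_subset ?_ ?_
  · intro k hk
    have hk' := Finset.mem_Ico.1 hk
    exact Finset.mem_Ico.2 ⟨by omega, by omega⟩
  · intro k hk hk2
    have hk' := Finset.mem_Ico.1 hk
    have : k = 0 ∨ k = N := by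
      by_contra hcon
      exact hk2 (Finset.mem_Ico.2 ⟨by omega, by omega⟩)
    rcases this with rfl | rfl
    · rw [hv.zero]; ring
    · rw [Nat.sub_self, hu.zero]; ring

theorem gen_mul {u v : ℕ → ℝ} (hu : PB u) (hv : PB v) {t : ℝ} (h0 : 0 ≤ t) (h1 : t < 1) :
    HasSum (fun N => cv u v N * t ^ N) (gen u t * gen v t) := by
  have e := tsum_mul_tsum_eq_tsum_sum_antidiagonal_of_summable_norm
    (hv.summable_norm h0 h1) (hu.summable_norm h0 h1)
  have s := (summable_norm_sum_mul_antidiagonal_of_summable_norm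
    (hv.summable_norm h0 h1) (hu.summable_norm h0 h1)).of_norm
  have e2 : ∀ N, ∑ p ∈ antidiagonal N, (v p.1 * t ^ p.1) * (u p.2 * t ^ p.2) =
      cv u v N * t ^ N := antidiag hu hv t
  simp only [e2] at e s
  unfold gen
  rw [mul_comm, e]
  exact s.hasSum

theorem PB.gen_nonneg {u : ℕ → ℝ} (h : PB u) {t : ℝ} (h0 : 0 ≤ t) : 0 ≤ gen u t :=
  tsum_nonneg fun n => mul_nonneg (h n).1 (pow_nonneg h0 n)

/-- the hypotheses on the normalized moments -/
structure Mom (μ κ θ : ℕ → ℝ) : Prop where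
  m0 : μ 0 = 0
  m1 : 0 < μ 1
  mn : ∀ n, 0 ≤ μ n ∧ μ n ≤ 2
  kn : ∀ n, 0 ≤ κ n ∧ κ n ≤ n * μ n
  tn : ∀ n, 0 ≤ θ n ∧ θ n ≤ n ^ 2 * μ n
  k : ∀ N, κ N = ∑ b ∈ Ico 1 N, ((N - b : ℕ) : ℝ) * μ (N - b) * μ b
  t : ∀ N, θ N ≤ ∑ b ∈ Ico 1 N, (((N - b : ℕ) : ℝ) * κ (N - b) * μ b +
    ((N - b : ℕ) : ℝ) * μ (N - b) * κ b + ((N - b : ℕ) : ℝ) * μ (N - b) * μ b)
  cs : ∀ N, κ N ^ 2 ≤ μ N * θ N

section
variable {μ κ θ : ℕ → ℝ} (H : Mom μ κ θ)
include H

theorem pb_μ : PB μ := by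
  intro n
  refine ⟨(H.mn n).1, ?_⟩
  rcases Nat.eq_zero_or_pos n with rfl | hn
  · rw [H.m0]; simp
  · have h1 : (1 : ℝ) ≤ n := by exact_mod_cast hn
    have := (H.mn n).2
    nlinarith

theorem pb_nμ : PB (fun n => (n : ℝ) * μ n) := by
  intro n
  refine ⟨mul_nonneg (Nat.cast_nonneg n) (H.mn n).1, ?_⟩
  rcases Nat.eq_zero_or_pos n with rfl | hn
  · simp
  · have h1 : (1 : ℝ) ≤ n := by exact_mod_cast hn
    have := (H.mn n).2
    have := (H.mn n).1
    simp only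
    nlinarith

theorem pb_n2μ : PB (fun n => (n : ℝ) ^ 2 * μ n) := by
  intro n
  refine ⟨mul_nonneg (by positivity) (H.mn n).1, ?_⟩
  have := (H.mn n).2
  simp only
  nlinarith [sq_nonneg (n : ℝ)]

theorem pb_κ : PB κ := by
  intro n
  refine ⟨(H.kn n).1, (H.kn n).2.trans (pb_nμ H n).2⟩

theorem pb_nκ : PB (fun n => (n : ℝ) * κ n) := by
  intro n
  refine ⟨mul_nonneg (Nat.cast_nonneg n) (H.kn n).1, ?_⟩
  refine le_trans ?_ (pb_n2μ H n).2
  have := mul_le_mul_of_nonneg_left (H.kn n).2 (Nat.cast_nonneg (α := ℝ) n)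
  simp only
  nlinarith

theorem pb_θ : PB θ := by
  intro n
  exact ⟨(H.tn n).1, (H.tn n).2.trans (pb_n2μ H n).2⟩

theorem main_ineq {t : ℝ} (h0 : 0 < t) (h1 : t < 1) :
    gen μ t ≤ 1 ∧ gen (fun n => (n : ℝ) * μ n) t ^ 3 ≤ gen (fun n => (n : ℝ) ^ 2 * μ n) t := by
  set D := gen (fun n => (n : ℝ) * μ n) t with hD
  set E := gen (fun n => (n : ℝ) ^ 2 * μ n) t with hE
  set Y := gen μ t with hY
  have h0' := h0.le
  have p1 := pb_μ H
  have p2 := pb_nμ H
  have p3 := pb_n2μ H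
  have p4 := pb_κ H
  have p5 := pb_nκ H
  have p6 := pb_θ H
  have hDpos : 0 < D := by
    have h := (p2.summable h0' h1).sum_le_tsum {1}
      (fun n _ => mul_nonneg (p2 n).1 (pow_nonneg h0' n))
    simp only [Finset.sum_singleton, Nat.cast_one, one_mul, pow_one] at h
    exact lt_of_lt_of_le (mul_pos H.m1 h0) h
  have hYnn : 0 ≤ Y := p1.gen_nonneg h0'
  have hEnn : 0 ≤ E := p3.gen_nonneg h0'
  -- first moment
  have hK : gen κ t = D * Y := by
    have h := gen_mul p2 p1 h0' h1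
    have e : (fun N => cv (fun n => (n : ℝ) * μ n) μ N * t ^ N) = fun N => κ N * t ^ N := by
      funext N
      rw [H.k N]; rfl
    rw [e] at h
    exact h.tsum_eq
  have hKD : gen κ t ≤ D := by
    refine (p4.summable h0' h1).tsum_le_tsum ?_ (p2.summable h0' h1)
    intro n
    exact mul_le_mul_of_nonneg_right (H.kn n).2 (pow_nonneg h0' n)
  have hY1 : Y ≤ 1 := by
    rw [hK] at hKD
    by_contra hlt
    push Not at hlt
    nlinarith
  refine ⟨hY1, ?_⟩
  -- mixed moment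
  have hW : gen (fun n => (n : ℝ) * κ n) t = E * Y + D * D := by
    have h := (gen_mul p3 p1 h0' h1).add (gen_mul p2 p2 h0' h1)
    have e : (fun N => cv (fun n => (n : ℝ) ^ 2 * μ n) μ N * t ^ N +
        cv (fun n => (n : ℝ) * μ n) (fun n => (n : ℝ) * μ n) N * t ^ N) =
        fun N : ℕ => (N : ℝ) * κ N * t ^ N := by
      funext N
      rw [H.k N, ← add_mul]
      congr 1
      unfold cv
      rw [← Finset.sum_add_distrib, Finset.mul_sum]
      refine Finset.sum_congr rfl ?_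
      intro b hb
      have hb' := Finset.mem_Ico.1 hb
      have : (N : ℝ) = ((N - b : ℕ) : ℝ) + b := by
        rw [← Nat.cast_add]; congr 1; omega
      rw [this]; ring
    rw [e] at h
    exact h.tsum_eq
  -- second moment
  have hT : gen θ t ≤ (E * Y + D * D) * Y + D * (D * Y) + D * Y := by
    have h := ((gen_mul p5 p1 h0' h1).add (gen_mul p2 p4 h0' h1)).add (gen_mul p2 p1 h0' h1)
    rw [hW, hK] at h
    rw [← h.tsum_eq]
    refine (p6.summable h0' h1).tsum_le_tsum ?_ h.summable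
    intro N
    rw [← add_mul, ← add_mul]
    refine mul_le_mul_of_nonneg_right ?_ (pow_nonneg h0' N)
    refine (H.t N).trans (le_of_eq ?_)
    unfold cv
    rw [← Finset.sum_add_distrib, ← Finset.sum_add_distrib]
  -- Cauchy-Schwarz
  have hCS : gen (fun n => (n : ℝ) * κ n) t ^ 2 ≤ E * gen θ t := by
    have hfin : ∀ s : Finset ℕ, (∑ n ∈ s, (n : ℝ) * κ n * t ^ n) ^ 2 ≤ E * gen θ t := by
      intro s
      have h2 : (∑ n ∈ s, (n : ℝ) * κ n * t ^ n) ^ 2 ≤
          (∑ n ∈ s, (n : ℝ) ^ 2 * μ n * t ^ n) * ∑ n ∈ s, θ n * t ^ n := by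
        have h3 : ∑ n ∈ s, (n : ℝ) * κ n * t ^ n ≤
            ∑ n ∈ s, Real.sqrt ((n : ℝ) ^ 2 * μ n * t ^ n) * Real.sqrt (θ n * t ^ n) := by
          refine Finset.sum_le_sum ?_
          intro n _
          have htn := pow_nonneg h0' n
          rw [← Real.sqrt_mul (mul_nonneg (p3 n).1 htn)]
          refine Real.le_sqrt_of_sq_le ?_
          have h5 := mul_le_mul_of_nonneg_left (H.cs n)
            (by positivity : (0 : ℝ) ≤ (n : ℝ) ^ 2 * (t ^ n) ^ 2)
          nlinarith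
        have h4 := Finset.sum_mul_sq_le_sq_mul_sq s
          (fun n : ℕ => Real.sqrt ((n : ℝ) ^ 2 * μ n * t ^ n))
          (fun n : ℕ => Real.sqrt (θ n * t ^ n))
        have h6 : ∀ n : ℕ, Real.sqrt ((n : ℝ) ^ 2 * μ n * t ^ n) ^ 2 = (n : ℝ) ^ 2 * μ n * t ^ n :=
          fun n => Real.sq_sqrt (mul_nonneg (p3 n).1 (pow_nonneg h0' n))
        have h7 : ∀ n : ℕ, Real.sqrt (θ n * t ^ n) ^ 2 = θ n * t ^ n :=
          fun n => Real.sq_sqrt (mul_nonneg (p6 n).1 (pow_nonneg h0' n))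
        simp only [h6, h7] at h4
        refine le_trans ?_ h4
        refine pow_le_pow_left₀ ?_ h3 2
        exact Finset.sum_nonneg fun n _ => mul_nonneg (p5 n).1 (pow_nonneg h0' n)
      refine h2.trans ?_
      have h8 := (p3.summable h0' h1).sum_le_tsum s
        (fun n _ => mul_nonneg (p3 n).1 (pow_nonneg h0' n))
      have h9 := (p6.summable h0' h1).sum_le_tsum s
        (fun n _ => mul_nonneg (p6 n).1 (pow_nonneg h0' n))
      exact mul_le_mul h8 h9 (Finset.sum_nonneg fun n _ =>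
        mul_nonneg (p6 n).1 (pow_nonneg h0' n)) hEnn
    have hs := (p5.summable h0' h1).hasSum
    have hlim : Tendsto (fun s : Finset ℕ => (∑ n ∈ s, (n : ℝ) * κ n * t ^ n) ^ 2) atTop
        (𝓝 (gen (fun n => (n : ℝ) * κ n) t ^ 2)) := hs.pow 2
    exact le_of_tendsto' hlim hfin
  rw [hW] at hCS
  have h10 := hCS.trans (mul_le_mul_of_nonneg_left hT hEnn)
  have h11 : D * D ^ 3 ≤ D * (E * Y) := by nlinarith
  have h12 : D ^ 3 ≤ E * Y := le_of_mul_le_mul_left h11 hDpos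
  nlinarith

theorem gen_mono {t s : ℝ} (h0 : 0 ≤ t) (hts : t ≤ s) (h1 : s < 1) :
    gen (fun n => (n : ℝ) * μ n) t ≤ gen (fun n => (n : ℝ) * μ n) s := by
  have p2 := pb_nμ H
  refine (p2.summable h0 (by linarith)).tsum_le_tsum ?_ (p2.summable (by linarith) h1)
  intro n
  exact mul_le_mul_of_nonneg_left (pow_le_pow_left₀ h0 hts n) (p2 n).1

theorem gen_step {t s : ℝ} (h0 : 0 ≤ t) (hts : t ≤ s) (h1 : s < 1) :
    gen (fun n => (n : ℝ) * μ n) t + (s - t) * gen (fun n => (n : ℝ) ^ 2 * μ n) t ≤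
      gen (fun n => (n : ℝ) * μ n) s := by
  have p2 := pb_nμ H
  have p3 := pb_n2μ H
  have ht1 : t < 1 := by linarith
  unfold gen
  rw [← tsum_mul_left, ← (p2.summable h0 ht1).tsum_add ((p3.summable h0 ht1).mul_left _)]
  refine ((p2.summable h0 ht1).add ((p3.summable h0 ht1).mul_left _)).tsum_le_tsum ?_
    (p2.summable (by linarith) h1)
  intro n
  have key : t ^ n + n * t ^ n * (s - t) ≤ s ^ n := by
    induction n with
    | zero => simp
    | succ n ih =>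
      have a1 : 0 ≤ t ^ n := pow_nonneg h0 n
      have a2 : 0 ≤ s - t := by linarith
      have a3 := mul_le_mul_of_nonneg_left ih (by linarith : (0 : ℝ) ≤ s)
      rw [pow_succ, pow_succ]
      push_cast
      have a4 : 0 ≤ (n : ℝ) * t ^ n * (s - t) * (s - t) := by positivity
      have a5 : 0 ≤ t ^ n * (s - t) * (1 - t) :=
        mul_nonneg (mul_nonneg a1 a2) (by linarith)
      nlinarith
  have := mul_le_mul_of_nonneg_left key (p2 n).1
  simp only at this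
  nlinarith

/-- the generating function of `n μ_n` is at most `(4/3)^(1/2) (1 - t)^(-1/2)` -/
theorem gen_bound {t : ℝ} (h0 : 0 < t) (h1 : t < 1) :
    gen (fun n => (n : ℝ) * μ n) t ^ 2 * (1 - t) ≤ 4 / 3 := by
  by_contra hlt
  push Not at hlt
  set D := gen (fun n => (n : ℝ) * μ n) with hD
  have hpos : 0 < D t := by
    have := (pb_nμ H).gen_nonneg h0.le
    rcases this.lt_or_eq with h | h
    · exact h
    · rw [hD, ← h] at hlt; norm_num at hlt
  set D0 := D t with hD0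
  have hT1 : t + 4 / 3 / D0 ^ 2 < 1 := by
    have : 4 / 3 / D0 ^ 2 < 1 - t := by
      rw [div_lt_iff₀ (by positivity)]; linarith
    linarith
  have key : ∀ j : ℕ, ∃ s, t ≤ s ∧ s ≤ t + 4 / 3 * (1 - (1 / 4 : ℝ) ^ j) / D0 ^ 2 ∧
      2 ^ j * D0 ≤ D s := by
    intro j
    induction j with
    | zero => exact ⟨t, le_rfl, by simp, by simp [hD0]⟩
    | succ j ih =>
      obtain ⟨s, s1, s2, s3⟩ := ih
      have q4 : (0 : ℝ) < (1 / 4 : ℝ) ^ j := by positivity
      have hDs : 0 < D s := lt_of_lt_of_le (by positivity) s3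
      have hinv : 1 / D s ^ 2 ≤ (1 / 4 : ℝ) ^ j / D0 ^ 2 := by
        rw [div_le_div_iff₀ (by positivity) (by positivity), one_mul]
        have : (2 ^ j * D0) ^ 2 ≤ D s ^ 2 := pow_le_pow_left₀ (by positivity) s3 2
        have e4 : ((1 / 4 : ℝ) ^ j) * (2 ^ j * D0) ^ 2 = D0 ^ 2 := by
          rw [mul_pow, ← pow_mul, mul_comm j 2, pow_mul, ← mul_assoc, ← mul_pow]
          norm_num
        calc D0 ^ 2 = ((1 / 4 : ℝ) ^ j) * (2 ^ j * D0) ^ 2 := e4.symm
          _ ≤ ((1 / 4 : ℝ) ^ j) * D s ^ 2 := mul_le_mul_of_nonneg_left this q4.le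
      have hsum : s + 1 / D s ^ 2 ≤ t + 4 / 3 * (1 - (1 / 4 : ℝ) ^ (j + 1)) / D0 ^ 2 := by
        have e5 : 4 / 3 * (1 - (1 / 4 : ℝ) ^ (j + 1)) / D0 ^ 2 =
            4 / 3 * (1 - (1 / 4 : ℝ) ^ j) / D0 ^ 2 + (1 / 4 : ℝ) ^ j / D0 ^ 2 := by
          rw [pow_succ]; ring
        rw [e5]; linarith
      have hlt1 : s + 1 / D s ^ 2 < 1 := by
        refine lt_of_le_of_lt hsum (lt_of_le_of_lt ?_ hT1)
        have : 4 / 3 * (1 - (1 / 4 : ℝ) ^ (j + 1)) / D0 ^ 2 ≤ 4 / 3 / D0 ^ 2 := by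
          refine div_le_div_of_nonneg_right ?_ (by positivity)
          have : (0 : ℝ) < (1 / 4 : ℝ) ^ (j + 1) := by positivity
          linarith
        linarith
      have hi : 0 < 1 / D s ^ 2 := by positivity
      refine ⟨s + 1 / D s ^ 2, by linarith, hsum, ?_⟩
      have hstep := gen_step H (t := s) (s := s + 1 / D s ^ 2) (by linarith) (by linarith) hlt1
      have hm := (main_ineq H (t := s) (by linarith) (by linarith)).2
      rw [← hD] at hstep hm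
      have e6 : (s + 1 / D s ^ 2 - s) * gen (fun n => (n : ℝ) ^ 2 * μ n) s ≥ D s := by
        rw [add_sub_cancel_left]
        calc 1 / D s ^ 2 * gen (fun n => (n : ℝ) ^ 2 * μ n) s ≥ 1 / D s ^ 2 * D s ^ 3 :=
              mul_le_mul_of_nonneg_left hm hi.le
          _ = D s := by field_simp
      calc 2 ^ (j + 1) * D0 = 2 * (2 ^ j * D0) := by rw [pow_succ]; ring
        _ ≤ 2 * D s := by linarith
        _ ≤ D (s + 1 / D s ^ 2) := by linarith
  have hbound : ∀ j : ℕ, (2 : ℝ) ^ j * D0 ≤ D (t + 4 / 3 / D0 ^ 2) := by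
    intro j
    obtain ⟨s, s1, s2, s3⟩ := key j
    refine s3.trans (gen_mono H (by linarith) ?_ hT1)
    refine s2.trans ?_
    have : 4 / 3 * (1 - (1 / 4 : ℝ) ^ j) / D0 ^ 2 ≤ 4 / 3 / D0 ^ 2 := by
      refine div_le_div_of_nonneg_right ?_ (by positivity)
      have : (0 : ℝ) < (1 / 4 : ℝ) ^ j := by positivity
      linarith
    linarith
  obtain ⟨j, hj⟩ := pow_unbounded_of_one_lt (D (t + 4 / 3 / D0 ^ 2) / D0) (by norm_num : (1 : ℝ) < 2)
  have := hbound j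
  rw [div_lt_iff₀ hpos] at hj
  linarith

/-- `∑_{n ≤ K} n μ_n ≤ 4 √K` -/
theorem sum_n_bound (K : ℕ) (hK : 1 ≤ K) :
    ∑ n ∈ Ico 1 (K + 1), (n : ℝ) * μ n ≤ 4 * Real.sqrt K := by
  have hK1 : (1 : ℝ) ≤ K := by exact_mod_cast hK
  set t : ℝ := 1 - 1 / (2 * K) with ht
  have e1 : (1 : ℝ) / (2 * K) ≤ 1 / 2 := by
    rw [div_le_div_iff₀ (by positivity) (by norm_num)]; linarith
  have e2 : (0 : ℝ) < 1 / (2 * K) := by positivity
  have h0 : 0 < t := by rw [ht]; linarith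
  have h1 : t < 1 := by rw [ht]; linarith
  have p2 := pb_nμ H
  have hb := gen_bound H h0 h1
  have hD : gen (fun n => (n : ℝ) * μ n) t ^ 2 ≤ 8 / 3 * K := by
    have : (1 - t) = 1 / (2 * K) := by rw [ht]; ring
    rw [this, mul_one_div, div_le_iff₀ (by positivity)] at hb
    linarith
  have htK : 1 / 2 ≤ t ^ K := by
    have := one_add_mul_le_pow (a := -(1 / (2 * (K : ℝ)))) (by linarith) K
    have e3 : 1 + (K : ℝ) * -(1 / (2 * (K : ℝ))) = 1 / 2 := by field_simp; ring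
    rw [e3] at this
    have e4 : 1 + -(1 / (2 * (K : ℝ))) = t := by rw [ht]; ring
    rw [e4] at this
    exact this
  have hS : ∑ n ∈ Ico 1 (K + 1), (n : ℝ) * μ n ≤ 2 * gen (fun n => (n : ℝ) * μ n) t := by
    have h5 := (p2.summable h0.le h1).sum_le_tsum (Ico 1 (K + 1))
      (fun n _ => mul_nonneg (p2 n).1 (pow_nonneg h0.le n))
    have h6 : ∑ n ∈ Ico 1 (K + 1), (n : ℝ) * μ n * (1 / 2) ≤
        ∑ n ∈ Ico 1 (K + 1), (n : ℝ) * μ n * t ^ n := by
      refine Finset.sum_le_sum ?_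
      intro n hn
      have hn' := Finset.mem_Ico.1 hn
      refine mul_le_mul_of_nonneg_left ?_ (p2 n).1
      exact htK.trans (pow_le_pow_of_le_one h0.le h1.le (by omega))
    rw [← Finset.sum_mul] at h6
    unfold gen
    linarith
  have hS0 : 0 ≤ ∑ n ∈ Ico 1 (K + 1), (n : ℝ) * μ n :=
    Finset.sum_nonneg fun n _ => (p2 n).1
  have hDnn := p2.gen_nonneg h0.le
  have hsq : Real.sqrt K ^ 2 = K := Real.sq_sqrt (by linarith)
  refine abs_le_of_sq_le_sq' ?_ (by positivity) |>.2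
  rw [mul_pow, hsq]
  nlinarith

/-- `∑ μ_n ≤ 1` -/
theorem sum_bound (s : Finset ℕ) : ∑ n ∈ s, μ n ≤ 1 := by
  have p1 := pb_μ H
  have hlim : Tendsto (fun t : ℝ => ∑ n ∈ s, μ n * t ^ n) (𝓝[<] 1) (𝓝 (∑ n ∈ s, μ n * 1 ^ n)) := by
    refine tendsto_nhdsWithin_of_tendsto_nhds ?_
    refine tendsto_finsetSum s fun n _ => ?_
    exact ((continuous_const.mul (continuous_pow n)).tendsto 1)
  simp only [one_pow, mul_one] at hlim
  refine le_of_tendsto hlim ?_
  have hmem : Set.Ioo (0 : ℝ) 1 ∈ 𝓝[<] (1 : ℝ) := Ioo_mem_nhdsLT (by norm_num)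
  filter_upwards [hmem] with t ht
  have h5 := (p1.summable ht.1.le ht.2).sum_le_tsum s
    (fun n _ => mul_nonneg (p1 n).1 (pow_nonneg ht.1.le n))
  exact h5.trans (main_ineq H ht.1 ht.2).1

end

end Pool.Agent.Helper976.Meander
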