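import Pool.Agent.Helper976_Meander.Part9
import Pool.Agent.Helper976_Meander.Part10

/-!
# The moments of the meanders, and power laws with exponent below `3 / 2`
-/

namespace Pool.Agent.Helper976.Meander

open Filter Topology Finset

/-- `M n / ρ ^ n`, with value `0` at `n = 0` -/
noncomputable def mu (ρ : ℝ) (n : ℕ) : ℝ := if n = 0 then 0 else (M n : ℝ) / ρ ^ n

theorem mu_of_pos {ρ : ℝ} {n : ℕ} (hn : 1 ≤ n) : mu ρ n = (M n : ℝ) / ρ ^ n := by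
  unfold mu; rw [if_neg (by omega)]

theorem K_zero : K 0 = 0 := by
  rw [K_eq]; rfl

theorem Q_zero : Q 0 = 0 := by
  have := Q_le_sq 0
  simpa using this

theorem mom {ρ : ℝ} (hρ : 1 ≤ ρ) (hb : ∀ n, 1 ≤ n → (M n : ℝ) ≤ 2 * ρ ^ n) :
    Mom (mu ρ) (fun n => (K n : ℝ) / ρ ^ n) (fun n => (Q n : ℝ) / ρ ^ n) := by
  have hρ0 : 0 < ρ := by linarith
  have hp : ∀ n : ℕ, 0 < ρ ^ n := fun n => pow_pos hρ0 n
  refine ⟨?_, ?_, ?_, ?_, ?_, ?_, ?_, ?_⟩
  · unfold mu; rw [if_pos rfl]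
  · rw [mu_of_pos le_rfl]
    have : (0 : ℝ) < M 1 := by exact_mod_cast M_one_pos
    exact div_pos this (hp 1)
  · intro n
    rcases Nat.eq_zero_or_pos n with rfl | hn
    · unfold mu; rw [if_pos rfl]; norm_num
    · rw [mu_of_pos hn]
      refine ⟨div_nonneg (Nat.cast_nonneg _) (hp n).le, ?_⟩
      rw [div_le_iff₀ (hp n)]
      exact hb n hn
  · intro n
    refine ⟨div_nonneg (Nat.cast_nonneg _) (hp n).le, ?_⟩
    rcases Nat.eq_zero_or_pos n with rfl | hn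
    · simp only [K_zero]; simp
    · rw [mu_of_pos hn, ← mul_div_assoc]
      refine div_le_div_of_nonneg_right ?_ (hp n).le
      exact_mod_cast K_le n
  · intro n
    refine ⟨div_nonneg (Nat.cast_nonneg _) (hp n).le, ?_⟩
    rcases Nat.eq_zero_or_pos n with rfl | hn
    · simp only [Q_zero]; simp
    · rw [mu_of_pos hn, ← mul_div_assoc]
      refine div_le_div_of_nonneg_right ?_ (hp n).le
      exact_mod_cast Q_le_sq n
  · intro N
    rw [K_eq, Nat.cast_sum, Finset.sum_div]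
    refine Finset.sum_congr rfl ?_
    intro b hb'
    have hb2 := Finset.mem_Ico.1 hb'
    rw [mu_of_pos (by omega : 1 ≤ N - b), mu_of_pos hb2.1, Nat.cast_mul, Nat.cast_mul]
    have e : ρ ^ N = ρ ^ (N - b) * ρ ^ b := by rw [← pow_add]; congr 1; omega
    have h1 := (hp (N - b)).ne'
    have h2 := (hp b).ne'
    rw [e]
    field_simp
  · intro N
    have h := Q_le N
    have h' : (Q N : ℝ) ≤ ((∑ b ∈ Ico 1 N, ((N - b) * K (N - b) * M b +
      (N - b) * M (N - b) * K b + (N - b) * M (N - b) * M b) : ℕ) : ℝ) := by exact_mod_cast h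
    refine (div_le_div_of_nonneg_right h' (hp N).le).trans (le_of_eq ?_)
    rw [Nat.cast_sum, Finset.sum_div]
    refine Finset.sum_congr rfl ?_
    intro b hb'
    have hb2 := Finset.mem_Ico.1 hb'
    rw [mu_of_pos (by omega : 1 ≤ N - b), mu_of_pos hb2.1]
    simp only [Nat.cast_add, Nat.cast_mul]
    have e : ρ ^ N = ρ ^ (N - b) * ρ ^ b := by rw [← pow_add]; congr 1; omega
    have h1 := (hp (N - b)).ne'
    have h2 := (hp b).ne'
    rw [e]
    field_simp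
  · intro N
    rcases Nat.eq_zero_or_pos N with rfl | hn
    · rw [K_zero, Q_zero]; simp
    · rw [mu_of_pos hn, div_pow, div_mul_div_comm, ← sq]
      refine div_le_div_of_nonneg_right ?_ (by positivity)
      exact_mod_cast K_sq_le N

/-- some `n` in `(K, 2 K]` has `n^(3/2) a_n ≤ 8 ρ^n` -/
theorem exists_small {a : ℕ → ℕ} {ρ : ℝ} (hρ : 1 ≤ ρ)
    (hb : ∀ K : ℕ, 1 ≤ K → ∑ n ∈ Ico 1 (K + 1), (n : ℝ) * ((a n : ℝ) / ρ ^ n) ≤ 4 * Real.sqrt K)
    (K : ℕ) (hK : 1 ≤ K) :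
    ∃ n : ℕ, K < n ∧ n ≤ 2 * K ∧ (n : ℝ) ^ (3 / 2 : ℝ) * (a n : ℝ) ≤ 8 * ρ ^ n := by
  have hρ0 : 0 < ρ := by linarith
  by_contra hcon
  push Not at hcon
  have hKpos : (0 : ℝ) < K := by exact_mod_cast hK
  have hs : 0 < Real.sqrt (2 * K) := Real.sqrt_pos.2 (by positivity)
  have hss : Real.sqrt (2 * K) * Real.sqrt (2 * K) = 2 * K := Real.mul_self_sqrt (by positivity)
  have hterm : ∀ n ∈ Ico (K + 1) (2 * K + 1), 8 / Real.sqrt (2 * K) <
      (n : ℝ) * ((a n : ℝ) / ρ ^ n) := by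
    intro n hn
    have hn' := Finset.mem_Ico.1 hn
    have hnpos : (0 : ℝ) < n := by
      have : 0 < n := by omega
      exact_mod_cast this
    have h1 := hcon n (by omega) (by omega)
    have h3 : (n : ℝ) ≤ 2 * K := by
      have : n ≤ 2 * K := by omega
      exact_mod_cast this
    have h5 : Real.sqrt n ≤ Real.sqrt (2 * K) := Real.sqrt_le_sqrt h3
    have e1 : (n : ℝ) ^ (3 / 2 : ℝ) = n * Real.sqrt n := by
      rw [show (3 / 2 : ℝ) = 1 + 1 / 2 by norm_num, Real.rpow_add hnpos, Real.rpow_one,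
        ← Real.sqrt_eq_rpow]
    have hp : 0 < ρ ^ n := pow_pos hρ0 n
    have ha : (0 : ℝ) ≤ a n := Nat.cast_nonneg _
    rw [e1] at h1
    rw [← mul_div_assoc, div_lt_div_iff₀ hs hp]
    refine lt_of_lt_of_le h1 ?_
    have : n * Real.sqrt n * (a n : ℝ) = n * (a n : ℝ) * Real.sqrt n := by ring
    rw [this]
    exact mul_le_mul_of_nonneg_left h5 (by positivity)
  have hsum : (K : ℝ) * (8 / Real.sqrt (2 * K)) <
      ∑ n ∈ Ico 1 (2 * K + 1), (n : ℝ) * ((a n : ℝ) / ρ ^ n) := by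
    have h1 : ∑ _n ∈ Ico (K + 1) (2 * K + 1), 8 / Real.sqrt (2 * K) <
        ∑ n ∈ Ico (K + 1) (2 * K + 1), (n : ℝ) * ((a n : ℝ) / ρ ^ n) :=
      Finset.sum_lt_sum_of_nonempty (Finset.nonempty_Ico.2 (by omega)) hterm
    rw [Finset.sum_const, Nat.card_Ico, nsmul_eq_mul,
      show 2 * K + 1 - (K + 1) = K by omega] at h1
    refine lt_of_lt_of_le h1 (Finset.sum_le_sum_of_subset_of_nonneg ?_ ?_)
    · exact Finset.Ico_subset_Ico (by omega) le_rfl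
    · intro n _ _; positivity
  have hb2 := hb (2 * K) (by omega)
  have hfin := lt_of_lt_of_le hsum hb2
  push_cast at hfin
  rw [← mul_div_assoc, div_lt_iff₀ hs, mul_assoc 4, hss] at hfin
  linarith

/-- a power law and `∑_{n ≤ K} n a_n / ρ^n ≤ 4 √K` give `α ≥ 3 / 2` -/
theorem alpha_ge {a : ℕ → ℕ} {ρ C α : ℝ} (hρ : 1 ≤ ρ) (hC : 0 < C)
    (h : Tendsto (fun n : ℕ => (a n : ℝ) / ρ ^ n * (n : ℝ) ^ α) atTop (𝓝 C))
    (hb : ∀ K : ℕ, 1 ≤ K → ∃ n : ℕ, K < n ∧ n ≤ 2 * K ∧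
      (n : ℝ) ^ (3 / 2 : ℝ) * (a n : ℝ) ≤ 8 * ρ ^ n) :
    3 / 2 ≤ α := by
  by_contra hlt
  push Not at hlt
  have hρ0 : 0 < ρ := by linarith
  have ev : ∀ᶠ n : ℕ in atTop, C / 2 < (a n : ℝ) / ρ ^ n * (n : ℝ) ^ α :=
    h.eventually (lt_mem_nhds (by linarith))
  obtain ⟨n0, hn0⟩ := eventually_atTop.1 ev
  have hlim : Tendsto (fun n : ℕ => (n : ℝ) ^ (3 / 2 - α)) atTop atTop :=
    (tendsto_rpow_atTop (by linarith)).comp tendsto_natCast_atTop_atTop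
  obtain ⟨n1, hn1⟩ := eventually_atTop.1 (hlim.eventually_gt_atTop (16 / C))
  obtain ⟨n, h1, _, h3⟩ := hb (n0 + n1 + 1) (by omega)
  have hnpos : (0 : ℝ) < n := by
    have : 0 < n := by omega
    exact_mod_cast this
  have h4 := hn0 n (by omega)
  have h5 := hn1 n (by omega)
  have hp : 0 < ρ ^ n := pow_pos hρ0 n
  have hA : 0 < (n : ℝ) ^ α := Real.rpow_pos_of_pos hnpos _
  have e1 : (n : ℝ) ^ (3 / 2 : ℝ) = (n : ℝ) ^ (3 / 2 - α) * (n : ℝ) ^ α := by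
    rw [← Real.rpow_add hnpos]; congr 1; ring
  rw [div_mul_eq_mul_div, lt_div_iff₀ hp] at h4
  rw [div_lt_iff₀ hC] at h5
  rw [e1] at h3
  have hX : 0 < (n : ℝ) ^ (3 / 2 - α) := Real.rpow_pos_of_pos hnpos _
  have h6 : (n : ℝ) ^ (3 / 2 - α) * (C / 2 * ρ ^ n) < (n : ℝ) ^ (3 / 2 - α) *
      ((a n : ℝ) * (n : ℝ) ^ α) := mul_lt_mul_of_pos_left h4 hX
  have h7 : (n : ℝ) ^ (3 / 2 - α) * ((a n : ℝ) * (n : ℝ) ^ α) =
      (n : ℝ) ^ (3 / 2 - α) * (n : ℝ) ^ α * (a n : ℝ) := by ring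
  have h8 : 16 * ρ ^ n < (n : ℝ) ^ (3 / 2 - α) * C * ρ ^ n := mul_lt_mul_of_pos_right h5 hp
  nlinarith

end Pool.Agent.Helper976.Meander
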