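import Pool.Agent.Helper976_Meander.Part1

/-!
# Insertion of one closed meander into another one
-/

namespace Pool.Agent.Helper976.Meander

open Finset

/-- insertion of `β` (on `2 k` points) into `α` at the gap before the point `x` -/
def ins (x k : ℕ) (α β : ℕ → ℕ) (i : ℕ) : ℕ :=
  if i < x then (if α i < x then α i else α i + 2 * k)
  else if i < x + 2 * k then x + β (i - x)
  else (if α (i - 2 * k) < x then α (i - 2 * k) else α (i - 2 * k) + 2 * k)

theorem ins_left {x k : ℕ} {α β : ℕ → ℕ} {i : ℕ} (h : i < x) :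
    ins x k α β i = if α i < x then α i else α i + 2 * k := by
  unfold ins; rw [if_pos h]

theorem ins_mid {x k : ℕ} {α β : ℕ → ℕ} {i : ℕ} (h : x ≤ i) (h2 : i < x + 2 * k) :
    ins x k α β i = x + β (i - x) := by
  unfold ins; rw [if_neg (by omega), if_pos h2]

theorem ins_right {x k : ℕ} {α β : ℕ → ℕ} {i : ℕ} (h : x + 2 * k ≤ i) :
    ins x k α β i = if α (i - 2 * k) < x then α (i - 2 * k) else α (i - 2 * k) + 2 * k := by
  unfold ins; rw [if_neg (by omega), if_neg (by omega)]

theorem ins_arch {x m k : ℕ} {α β : ℕ → ℕ} (hx : x ≤ 2 * m) (hα : Arch m α) (hβ : Arch k β) :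
    Arch (m + k) (ins x k α β) := by
  refine ⟨?_, ?_, ?_, ?_, ?_⟩
  · intro i hi
    rcases Nat.lt_or_ge i x with h1 | h1
    · rw [ins_left h1]
      have := hα.lt i (by omega)
      split_ifs <;> omega
    · rcases Nat.lt_or_ge i (x + 2 * k) with h2 | h2
      · rw [ins_mid h1 h2]
        have := hβ.lt (i - x) (by omega)
        omega
      · rw [ins_right h2]
        have := hα.lt (i - 2 * k) (by omega)
        split_ifs <;> omega
  · intro i hi
    rcases Nat.lt_or_ge i x with h1 | h1
    · rw [ins_left h1]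
      have := hα.ne i (by omega)
      split_ifs <;> omega
    · rcases Nat.lt_or_ge i (x + 2 * k) with h2 | h2
      · rw [ins_mid h1 h2]
        have := hβ.ne (i - x) (by omega)
        omega
      · rw [ins_right h2]
        have := hα.ne (i - 2 * k) (by omega)
        split_ifs <;> omega
  · intro i hi
    rcases Nat.lt_or_ge i x with h1 | h1
    · rw [ins_left h1]
      have h3 := hα.inv i (by omega)
      split_ifs with h
      · rw [ins_left h, h3, if_pos h1]
      · rw [ins_right (by omega), show α i + 2 * k - 2 * k = α i by omega, h3, if_pos h1]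
    · rcases Nat.lt_or_ge i (x + 2 * k) with h2 | h2
      · have h4 := hβ.lt (i - x) (by omega)
        rw [ins_mid h1 h2, ins_mid (by omega) (by omega), show x + β (i - x) - x = β (i - x) by omega,
          hβ.inv (i - x) (by omega)]
        omega
      · rw [ins_right h2]
        have h3 := hα.inv (i - 2 * k) (by omega)
        split_ifs with h
        · rw [ins_left h, h3, if_neg (by omega)]; omega
        · rw [ins_right (by omega), show α (i - 2 * k) + 2 * k - 2 * k = α (i - 2 * k) by omega, h3,
            if_neg (by omega)]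
          omega
  · intro i j hi hj hij hj2 hj3
    rcases Nat.lt_or_ge i x with h1 | h1
    · rw [ins_left h1] at hj2 hj3
      rcases Nat.lt_or_ge j x with h4 | h4
      · rw [ins_left h4] at hj3
        have : ¬ (j < α i ∧ α i < α j) := fun h =>
          hα.nc i j (by omega) (by omega) hij h.1 h.2
        split_ifs at hj2 hj3 <;> omega
      · rcases Nat.lt_or_ge j (x + 2 * k) with h5 | h5
        · rw [ins_mid h4 h5] at hj3
          have := hβ.lt (j - x) (by omega)
          split_ifs at hj2 hj3 <;> omega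
        · rw [ins_right h5] at hj3
          have : ¬ (j - 2 * k < α i ∧ α i < α (j - 2 * k)) := fun h =>
            hα.nc i (j - 2 * k) (by omega) (by omega) (by omega) h.1 h.2
          split_ifs at hj2 hj3 <;> omega
    · rcases Nat.lt_or_ge i (x + 2 * k) with h2 | h2
      · rw [ins_mid h1 h2] at hj2 hj3
        have h6 := hβ.lt (i - x) (by omega)
        have h5 : j < x + 2 * k := by omega
        rw [ins_mid (by omega) h5] at hj3
        exact hβ.nc (i - x) (j - x) (by omega) (by omega) (by omega) (by omega) (by omega)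
      · rw [ins_right h2] at hj2 hj3
        rw [ins_right (by omega)] at hj3
        have : ¬ (j - 2 * k < α (i - 2 * k) ∧ α (i - 2 * k) < α (j - 2 * k)) := fun h =>
          hα.nc (i - 2 * k) (j - 2 * k) (by omega) (by omega) (by omega) h.1 h.2
        split_ifs at hj2 hj3 <;> omega
  · intro i hi
    rw [ins_right (by omega)]
    have := hα.out (i - 2 * k) (by omega)
    rw [this]
    split_ifs <;> omega

/-- surgery at the adjacent points `d, d + 1`: the arcs `(c, d)`, `(d + 1, b)` are replaced by
`(d, d + 1)`, `(c, b)`. -/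
def sur (d : ℕ) (σ : ℕ → ℕ) (i : ℕ) : ℕ :=
  if i = d then d + 1 else if i = d + 1 then d else if i = σ d then σ (d + 1)
  else if i = σ (d + 1) then σ d else σ i

theorem sur_other {d : ℕ} {σ : ℕ → ℕ} {i : ℕ} (h1 : i ≠ d) (h2 : i ≠ d + 1) (h3 : i ≠ σ d)
    (h4 : i ≠ σ (d + 1)) : sur d σ i = σ i := by
  unfold sur; rw [if_neg h1, if_neg h2, if_neg h3, if_neg h4]

theorem sur_d {d : ℕ} {σ : ℕ → ℕ} : sur d σ d = d + 1 := by
  unfold sur; rw [if_pos rfl]

theorem sur_a {d : ℕ} {σ : ℕ → ℕ} : sur d σ (d + 1) = d := by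
  unfold sur; rw [if_neg (by omega), if_pos rfl]

theorem sur_c {d : ℕ} {σ : ℕ → ℕ} (h1 : σ d ≠ d) (h2 : σ d ≠ d + 1) :
    sur d σ (σ d) = σ (d + 1) := by
  unfold sur; rw [if_neg h1, if_neg h2, if_pos rfl]

theorem sur_b {d : ℕ} {σ : ℕ → ℕ} (h1 : σ (d + 1) ≠ d) (h2 : σ (d + 1) ≠ d + 1)
    (h3 : σ (d + 1) ≠ σ d) : sur d σ (σ (d + 1)) = σ d := by
  unfold sur; rw [if_neg h1, if_neg h2, if_neg h3, if_pos rfl]

theorem sur_arch {N d : ℕ} {σ : ℕ → ℕ} (h : Arch N σ) (hd : d + 1 < 2 * N) (hc : σ d < d)
    (hb : d + 1 < σ (d + 1)) : Arch N (sur d σ) := by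
  have hcl := h.lt d (by omega)
  have hbl := h.lt (d + 1) hd
  have hci := h.inv d (by omega)
  have hbi := h.inv (d + 1) hd
  have Sc : sur d σ (σ d) = σ (d + 1) := sur_c (by omega) (by omega)
  have Sb : sur d σ (σ (d + 1)) = σ d := sur_b (by omega) (by omega) (by omega)
  have Sd : sur d σ d = d + 1 := sur_d
  have Sa : sur d σ (d + 1) = d := sur_a
  -- four special points and the others
  have oth : ∀ i, i < 2 * N → i ≠ d → i ≠ d + 1 → i ≠ σ d → i ≠ σ (d + 1) →
      sur d σ i = σ i ∧ σ i ≠ d ∧ σ i ≠ d + 1 ∧ σ i ≠ σ d ∧ σ i ≠ σ (d + 1) := by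
    intro i hi h1 h2 h3 h4
    have hii := h.inv i hi
    refine ⟨sur_other h1 h2 h3 h4, ?_, ?_, ?_, ?_⟩
    · intro he; rw [he] at hii; omega
    · intro he; rw [he] at hii; omega
    · intro he; rw [he, hci] at hii; omega
    · intro he; rw [he, hbi] at hii; omega
  refine ⟨?_, ?_, ?_, ?_, ?_⟩
  · intro i hi
    by_cases h1 : i = d
    · subst h1; rw [Sd]; omega
    by_cases h2 : i = d + 1
    · subst h2; rw [Sa]; omega
    by_cases h3 : i = σ d
    · subst h3; rw [Sc]; omega
    by_cases h4 : i = σ (d + 1)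
    · subst h4; rw [Sb]; omega
    rw [(oth i hi h1 h2 h3 h4).1]; exact h.lt i hi
  · intro i hi
    by_cases h1 : i = d
    · subst h1; rw [Sd]; omega
    by_cases h2 : i = d + 1
    · subst h2; rw [Sa]; omega
    by_cases h3 : i = σ d
    · subst h3; rw [Sc]; omega
    by_cases h4 : i = σ (d + 1)
    · subst h4; rw [Sb]; omega
    rw [(oth i hi h1 h2 h3 h4).1]; exact h.ne i hi
  · intro i hi
    by_cases h1 : i = d
    · subst h1; rw [Sd, Sa]
    by_cases h2 : i = d + 1
    · subst h2; rw [Sa, Sd]
    by_cases h3 : i = σ d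
    · subst h3; rw [Sc, Sb]
    by_cases h4 : i = σ (d + 1)
    · subst h4; rw [Sb, Sc]
    obtain ⟨o1, o2, o3, o4, o5⟩ := oth i hi h1 h2 h3 h4
    rw [o1, sur_other o2 o3 o4 o5]; exact h.inv i hi
  · intro i j hi hj hij hj2 hj3
    by_cases h1 : i = d
    · subst h1; rw [Sd] at hj2; omega
    by_cases h2 : i = d + 1
    · subst h2; rw [Sa] at hj2; omega
    by_cases h4 : i = σ (d + 1)
    · rw [h4, Sb] at hj2; omega
    by_cases k1 : j = d
    · subst k1; rw [Sd] at hj3; omega
    by_cases k2 : j = d + 1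
    · subst k2
      rw [Sa] at hj3; omega
    by_cases k4 : j = σ (d + 1)
    · rw [k4, Sb] at hj3
      by_cases h3 : i = σ d
      · omega
      · rw [(oth i hi h1 h2 h3 h4).1] at hj2 hj3; omega
    by_cases h3 : i = σ d
    · rw [h3, Sc] at hj2 hj3
      by_cases k3 : j = σ d
      · omega
      rw [(oth j hj k1 k2 k3 k4).1] at hj3
      rcases Nat.lt_or_ge j d with hjd | hjd
      · have := h.inside (i := σ d) (k := j) hcl (by omega) (by rw [hci]; exact hjd)
        rw [hci] at this
        omega
      · have := h.inside (i := d + 1) (k := j) hd (by omega) hj2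
        omega
    · rw [(oth i hi h1 h2 h3 h4).1] at hj2 hj3
      have hli := h.lt i hi
      have hii := h.inv i hi
      by_cases k3 : j = σ d
      · rw [k3, Sc] at hj3
        obtain ⟨o1, o2, o3, o4, o5⟩ := oth i hi h1 h2 h3 h4
        rcases Nat.lt_or_ge (σ i) d with hjd | hjd
        · have := h.inside (i := σ d) (k := σ i) hcl (by omega) (by rw [hci]; exact hjd)
          rw [hci, hii] at this
          omega
        · have := h.inside (i := d + 1) (k := σ i) hd (by omega) hj3
          omega
      · rw [(oth j hj k1 k2 k3 k4).1] at hj3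
        exact h.nc i j hi hj hij hj2 hj3
  · intro i hi
    rw [sur_other (by omega) (by omega) (by omega) (by omega)]
    exact h.out i hi

end Pool.Agent.Helper976.Meander
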