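import Pool.Agent.Helper976_Meander.Part2

/-!
# Insertion of a closed meander into a closed meander: connectivity, cut interval, injectivity
-/

namespace Pool.Agent.Helper976.Meander

open Finset

theorem pair_lemma (S : Finset ℕ) (t f : ℕ → ℕ) (p q : ℕ)
    (ht : ∀ i ∈ S, t i ∈ S ∧ t i ≠ i ∧ t (t i) = i) (hpq : f p = q) (hqp : f q = p)
    (hf : ∀ i ∈ S, i ≠ p → i ≠ q → f i ∈ S ∧ f i ≠ i ∧ f (f i) = i) : p ∈ S ↔ q ∈ S := by
  have aux : ∀ p q : ℕ, f p = q → f q = p →
      (∀ i ∈ S, i ≠ p → i ≠ q → f i ∈ S ∧ f i ≠ i ∧ f (f i) = i) → p ∈ S → q ∈ S := by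
    intro p q hpq hqp hf hp
    by_contra hq
    have e1 := even_card_of_involution S t ht
    have e2 : Even (S.erase p).card := by
      refine even_card_of_involution _ f ?_
      intro i hi
      have hi1 := Finset.mem_of_mem_erase hi
      have hi2 := Finset.ne_of_mem_erase hi
      have hiq : i ≠ q := by rintro rfl; exact hq hi1
      obtain ⟨a1, a2, a3⟩ := hf i hi1 hi2 hiq
      refine ⟨Finset.mem_erase.2 ⟨?_, a1⟩, a2, a3⟩
      intro he
      rw [he, hpq] at a3
      exact hiq a3.symm
    rw [Finset.card_erase_of_mem hp] at e2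
    have hpos : 0 < S.card := Finset.card_pos.2 ⟨p, hp⟩
    rcases e1 with ⟨r, hr⟩
    rcases e2 with ⟨s, hs⟩
    omega
  exact ⟨aux p q hpq hqp hf, aux q p hqp hpq (fun i hi h1 h2 => hf i hi h2 h1)⟩

/-- a closed meander of order `n` -/
structure Meander (n : ℕ) (p : (ℕ → ℕ) × (ℕ → ℕ)) : Prop where
  up : Arch n p.1
  down : Arch n p.2
  conn : Conn n p.1 p.2

/-- the result of the insertion of `B` into `A` at the left end `x` of an upper arc of `A` -/
def glue (x k : ℕ) (A B : (ℕ → ℕ) × (ℕ → ℕ)) : (ℕ → ℕ) × (ℕ → ℕ) :=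
  (sur (x + 2 * k - 1) (ins x k A.1 B.1), ins x k A.2 B.2)

section
variable {x m k : ℕ} {A B : (ℕ → ℕ) × (ℕ → ℕ)}

theorem s0_d (hk : 0 < k) (hB : Meander k B) :
    x ≤ ins x k A.1 B.1 (x + 2 * k - 1) ∧ ins x k A.1 B.1 (x + 2 * k - 1) < x + 2 * k - 1 := by
  rw [ins_mid (by omega) (by omega)]
  have h1 := hB.up.lt (x + 2 * k - 1 - x) (by omega)
  have h2 := hB.up.ne (x + 2 * k - 1 - x) (by omega)
  omega

theorem s0_a (hk : 0 < k) (hx2 : x < A.1 x) :
    ins x k A.1 B.1 (x + 2 * k - 1 + 1) = A.1 x + 2 * k := by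
  rw [ins_right (by omega), show x + 2 * k - 1 + 1 - 2 * k = x by omega, if_neg (by omega)]

theorem ins_mid_mem {α β : ℕ → ℕ} (hβ : Arch k β) {i : ℕ} (h1 : x ≤ i) (h2 : i < x + 2 * k) :
    x ≤ ins x k α β i ∧ ins x k α β i < x + 2 * k := by
  rw [ins_mid h1 h2]
  have := hβ.lt (i - x) (by omega)
  omega

theorem ins_out_mem {α β : ℕ → ℕ} {i : ℕ} (h : i < x ∨ x + 2 * k ≤ i) :
    ins x k α β i < x ∨ x + 2 * k ≤ ins x k α β i := by
  rcases h with h | h
  · rw [ins_left h]; split_ifs <;> omega
  · rw [ins_right h]; split_ifs <;> omega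

theorem glue_cut (hk : 0 < k) (hA : Meander m A) (hB : Meander k B) (hx : x < 2 * m)
    (hx2 : x < A.1 x) : Cut (m + k) (glue x k A B).1 (glue x k A B).2 x (x + 2 * k - 1) := by
  have c1 := s0_d (x := x) (A := A) hk hB
  have a1 := s0_a (k := k) (B := B) hk hx2
  have hC := ins_arch (x := x) (k := k) (by omega) hA.up hB.up
  have hcinv := hC.inv (x + 2 * k - 1) (by omega)
  refine ⟨by omega, by omega, ?_, sur_d, ins x k A.1 B.1 (x + 2 * k - 1), c1.1, c1.2, ?_, ?_⟩
  · intro i h1 h2
    have := ins_mid_mem (α := A.2) (x := x) hB.down h1 (show i < x + 2 * k by omega)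
    simp only [glue]
    omega
  · simp only [glue]
    rw [sur_c (by omega) (by omega), a1]
    omega
  · intro i h1 h2 h3
    simp only [glue]
    rw [sur_other (by omega) (by omega) h3 (by rw [a1]; omega)]
    have h4 := ins_mid_mem (α := A.1) (x := x) hB.up h1 (show i < x + 2 * k by omega)
    refine ⟨h4.1, ?_⟩
    have h5 : ins x k A.1 B.1 i ≠ x + 2 * k - 1 := by
      intro he
      have := hC.inv i (by omega)
      rw [he] at this
      exact h3 this.symm
    omega

theorem glue_conn (hk : 0 < k) (hA : Meander m A) (hB : Meander k B) (hx : x < 2 * m)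
    (hx2 : x < A.1 x) : Conn (m + k) (glue x k A B).1 (glue x k A B).2 := by
  have c1 := s0_d (x := x) (A := A) hk hB
  have a1 := s0_a (k := k) (B := B) hk hx2
  have hC := ins_arch (x := x) (k := k) (by omega) hA.up hB.up
  have hD := ins_arch (x := x) (k := k) (by omega) hA.down hB.down
  have hAx := hA.up.lt x hx
  set s0 := ins x k A.1 B.1 with hs0
  set t0 := ins x k A.2 B.2 with ht0
  set d := x + 2 * k - 1 with hd
  have hcinv := hC.inv d (by omega)
  have hbinv := hC.inv (d + 1) (by omega)
  intro S hS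
  have hS' : ∀ i ∈ S, i < 2 * (m + k) ∧ sur d s0 i ∈ S ∧ t0 i ∈ S := hS
  have Sc : sur d s0 (s0 d) = s0 (d + 1) := sur_c (by omega) (by omega)
  have Sb : sur d s0 (s0 (d + 1)) = s0 d := sur_b (by omega) (by omega) (by omega)
  have hcb : s0 d ∈ S ↔ s0 (d + 1) ∈ S := by
    constructor
    · intro h; have := (hS' _ h).2.1; rwa [Sc] at this
    · intro h; have := (hS' _ h).2.1; rwa [Sb] at this
  -- inside
  have hin : s0 d ∈ S.filter (fun i => x ≤ i ∧ i < x + 2 * k) ↔
      d ∈ S.filter (fun i => x ≤ i ∧ i < x + 2 * k) := by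
    refine pair_lemma _ t0 s0 _ _ ?_ hcinv rfl ?_
    · intro i hi
      have hi' := Finset.mem_filter.1 hi
      have h1 := hS' i hi'.1
      refine ⟨Finset.mem_filter.2 ⟨h1.2.2, ins_mid_mem hB.down hi'.2.1 hi'.2.2⟩, hD.ne i h1.1,
        hD.inv i h1.1⟩
    · intro i hi hip hiq
      have hi' := Finset.mem_filter.1 hi
      have h1 := hS' i hi'.1
      have h2 : sur d s0 i = s0 i := sur_other hiq (by omega) hip (by omega)
      refine ⟨Finset.mem_filter.2 ⟨by rw [← h2]; exact h1.2.1,
        ins_mid_mem hB.up hi'.2.1 hi'.2.2⟩, hC.ne i h1.1, hC.inv i h1.1⟩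
  have hout : s0 (d + 1) ∈ S.filter (fun i => i < x ∨ x + 2 * k ≤ i) ↔
      d + 1 ∈ S.filter (fun i => i < x ∨ x + 2 * k ≤ i) := by
    refine pair_lemma _ t0 s0 _ _ ?_ hbinv rfl ?_
    · intro i hi
      have hi' := Finset.mem_filter.1 hi
      have h1 := hS' i hi'.1
      refine ⟨Finset.mem_filter.2 ⟨h1.2.2, ins_out_mem hi'.2⟩, hD.ne i h1.1, hD.inv i h1.1⟩
    · intro i hi hip hiq
      have hi' := Finset.mem_filter.1 hi
      have h1 := hS' i hi'.1
      have h2 : sur d s0 i = s0 i := sur_other (by omega) hiq (by omega) hip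
      refine ⟨Finset.mem_filter.2 ⟨by rw [← h2]; exact h1.2.1, ins_out_mem hi'.2⟩,
        hC.ne i h1.1, hC.inv i h1.1⟩
  have hin' : s0 d ∈ S ↔ d ∈ S := by
    simp only [Finset.mem_filter] at hin
    constructor
    · intro h; exact (hin.1 ⟨h, by omega⟩).1
    · intro h; exact (hin.2 ⟨h, by omega⟩).1
  have hout' : s0 (d + 1) ∈ S ↔ d + 1 ∈ S := by
    simp only [Finset.mem_filter] at hout
    constructor
    · intro h; exact (hout.1 ⟨h, by omega⟩).1
    · intro h; exact (hout.2 ⟨h, by omega⟩).1
  -- `S` is closed under `s0`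
  have hs0S : ∀ i ∈ S, s0 i ∈ S := by
    intro i hi
    by_cases h1 : i = d
    · rw [h1]; rw [h1] at hi; exact hin'.2 hi
    by_cases h2 : i = d + 1
    · rw [h2]; rw [h2] at hi; exact hout'.2 hi
    by_cases h3 : i = s0 d
    · rw [h3, hcinv]; rw [h3] at hi; exact hin'.1 hi
    by_cases h4 : i = s0 (d + 1)
    · rw [h4, hbinv]; rw [h4] at hi; exact hout'.1 hi
    have := (hS' i hi).2.1
    rwa [sur_other h1 h2 h3 h4] at this
  have kB := hB.conn ((range (2 * k)).filter (fun j => x + j ∈ S)) (by
    intro j hj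
    have hj' : j < 2 * k ∧ x + j ∈ S := by simpa using hj
    have e1 := hs0S _ hj'.2
    have e2 := (hS' _ hj'.2).2.2
    rw [hs0, ins_mid (by omega) (by omega), show x + j - x = j by omega] at e1
    rw [ht0, ins_mid (by omega) (by omega), show x + j - x = j by omega] at e2
    refine ⟨hj'.1, ?_, ?_⟩
    · have : B.1 j < 2 * k ∧ x + B.1 j ∈ S := ⟨hB.up.lt j hj'.1, e1⟩
      simpa using this
    · have : B.2 j < 2 * k ∧ x + B.2 j ∈ S := ⟨hB.down.lt j hj'.1, e2⟩
      simpa using this)
  have shift : ∀ (α β : ℕ → ℕ) (j : ℕ), ins x k α β (if j < x then j else j + 2 * k) =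
      if α j < x then α j else α j + 2 * k := by
    intro α β j
    by_cases h : j < x
    · rw [if_pos h, ins_left h]
    · rw [if_neg h, ins_right (by omega), show j + 2 * k - 2 * k = j by omega]
  have kA := hA.conn ((range (2 * m)).filter (fun j => (if j < x then j else j + 2 * k) ∈ S)) (by
    intro j hj
    have hj' : j < 2 * m ∧ (if j < x then j else j + 2 * k) ∈ S := by
      have := Finset.mem_filter.1 hj
      exact ⟨mem_range.1 this.1, this.2⟩
    have e1 := hs0S _ hj'.2
    have e2 := (hS' _ hj'.2).2.2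
    rw [hs0, shift] at e1
    rw [ht0, shift] at e2
    exact ⟨hj'.1, Finset.mem_filter.2 ⟨mem_range.2 (hA.up.lt j hj'.1), e1⟩,
      Finset.mem_filter.2 ⟨mem_range.2 (hA.down.lt j hj'.1), e2⟩⟩)
  rcases kB with hb | hb
  · -- `S` is disjoint from the block
    have hno : ∀ i, x ≤ i → i < x + 2 * k → i ∉ S := by
      intro i h1 h2 hi
      have : i - x ∈ (range (2 * k)).filter (fun j => x + j ∈ S) := by
        refine Finset.mem_filter.2 ⟨mem_range.2 (by omega), ?_⟩
        rwa [show x + (i - x) = i by omega]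
      rw [hb] at this
      simp at this
    have hbS : s0 (d + 1) ∉ S := fun h => hno _ c1.1 (by omega) (hcb.2 h)
    rcases kA with ha | ha
    · left
      rw [Finset.eq_empty_iff_forall_notMem]
      intro i hi
      have hi2 := (hS' i hi).1
      by_cases h1 : i < x
      · have : i ∈ (range (2 * m)).filter (fun j => (if j < x then j else j + 2 * k) ∈ S) :=
          Finset.mem_filter.2 ⟨mem_range.2 (by omega), by rw [if_pos h1]; exact hi⟩
        rw [ha] at this
        simp at this
      · by_cases h2 : i < x + 2 * k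
        · exact hno i (by omega) h2 hi
        · have : i - 2 * k ∈ (range (2 * m)).filter
              (fun j => (if j < x then j else j + 2 * k) ∈ S) :=
            Finset.mem_filter.2 ⟨mem_range.2 (by omega), by
              rw [if_neg (by omega), show i - 2 * k + 2 * k = i by omega]; exact hi⟩
          rw [ha] at this
          simp at this
    · exfalso
      have : A.1 x ∈ (range (2 * m)).filter (fun j => (if j < x then j else j + 2 * k) ∈ S) := by
        rw [ha]; exact mem_range.2 hAx
      have := (Finset.mem_filter.1 this).2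
      rw [if_neg (by omega), ← a1] at this
      exact hbS this
  · have hall : ∀ i, x ≤ i → i < x + 2 * k → i ∈ S := by
      intro i h1 h2
      have : i - x ∈ (range (2 * k)).filter (fun j => x + j ∈ S) := by
        rw [hb]; exact mem_range.2 (by omega)
      have := (Finset.mem_filter.1 this).2
      rwa [show x + (i - x) = i by omega] at this
    have hbS : s0 (d + 1) ∈ S := hcb.1 (hall _ c1.1 (by omega))
    rcases kA with ha | ha
    · exfalso
      have : A.1 x ∈ (range (2 * m)).filter (fun j => (if j < x then j else j + 2 * k) ∈ S) := by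
        refine Finset.mem_filter.2 ⟨mem_range.2 hAx, ?_⟩
        rw [if_neg (by omega), ← a1]
        exact hbS
      rw [ha] at this
      simp at this
    · right
      ext i
      constructor
      · intro hi; exact mem_range.2 (hS' i hi).1
      · intro hi
        have hi2 := mem_range.1 hi
        by_cases h1 : i < x
        · have : i ∈ (range (2 * m)).filter (fun j => (if j < x then j else j + 2 * k) ∈ S) := by
            rw [ha]; exact mem_range.2 (by omega)
          have := (Finset.mem_filter.1 this).2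
          rwa [if_pos h1] at this
        · by_cases h2 : i < x + 2 * k
          · exact hall i (by omega) h2
          · have : i - 2 * k ∈ (range (2 * m)).filter
                (fun j => (if j < x then j else j + 2 * k) ∈ S) := by
              rw [ha]; exact mem_range.2 (by omega)
            have := (Finset.mem_filter.1 this).2
            rwa [if_neg (by omega), show i - 2 * k + 2 * k = i by omega] at this

theorem glue_meander (hk : 0 < k) (hA : Meander m A) (hB : Meander k B) (hx : x < 2 * m)
    (hx2 : x < A.1 x) : Meander (m + k) (glue x k A B) := by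
  have c1 := s0_d (x := x) (A := A) hk hB
  have a1 := s0_a (k := k) (B := B) hk hx2
  exact ⟨sur_arch (ins_arch (by omega) hA.up hB.up) (by omega) c1.2 (by rw [a1]; omega),
    ins_arch (by omega) hA.down hB.down, glue_conn hk hA hB hx hx2⟩

theorem ins_inj {α α' β β' : ℕ → ℕ} (hβ : Arch k β) (hβ' : Arch k β')
    (h : ins x k α β = ins x k α' β') : α = α' ∧ β = β' := by
  constructor
  · funext j
    by_cases hj : j < x
    · have := congrFun h j
      rw [ins_left hj, ins_left hj] at this
      split_ifs at this <;> omega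
    · have := congrFun h (j + 2 * k)
      rw [ins_right (by omega), ins_right (by omega), show j + 2 * k - 2 * k = j by omega] at this
      split_ifs at this <;> omega
  · funext j
    by_cases hj : j < 2 * k
    · have := congrFun h (x + j)
      rw [ins_mid (by omega) (by omega), ins_mid (by omega) (by omega),
        show x + j - x = j by omega] at this
      omega
    · rw [hβ.out j (by omega), hβ'.out j (by omega)]

theorem glue_inj {A' B' : (ℕ → ℕ) × (ℕ → ℕ)} (hk : 0 < k) (hA : Meander m A) (hB : Meander k B)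
    (hA' : Meander m A') (hB' : Meander k B') (hx : x < 2 * m) (hx2 : x < A.1 x)
    (hx2' : x < A'.1 x) (h : glue x k A B = glue x k A' B') : A = A' ∧ B = B' := by
  have h1 : (glue x k A B).1 = (glue x k A' B').1 := by rw [h]
  have h2 : (glue x k A B).2 = (glue x k A' B').2 := by rw [h]
  have c1 := s0_d (x := x) (A := A) hk hB
  have a1 := s0_a (k := k) (B := B) hk hx2
  have c1' := s0_d (x := x) (A := A') hk hB'
  have a1' := s0_a (k := k) (B := B') hk hx2'
  have hC := ins_arch (x := x) (k := k) (by omega) hA.up hB.up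
  have hC' := ins_arch (x := x) (k := k) (by omega) hA'.up hB'.up
  obtain ⟨-, -, -, -, -⟩ := glue_cut hk hA hB hx hx2
  have hcut := glue_cut hk hA hB hx hx2
  simp only [glue] at h1 h2
  set s0 := ins x k A.1 B.1 with hs0
  set s0' := ins x k A'.1 B'.1 with hs0'
  set d := x + 2 * k - 1 with hd
  have hcinv := hC.inv d (by omega)
  have hbinv := hC.inv (d + 1) (by omega)
  have hcinv' := hC'.inv d (by omega)
  have hbinv' := hC'.inv (d + 1) (by omega)
  have Sc : sur d s0 (s0 d) = s0 (d + 1) := sur_c (by omega) (by omega)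
  have Sc' : sur d s0' (s0' d) = s0' (d + 1) := sur_c (by omega) (by omega)
  have hcc : s0' d = s0 d := by
    by_contra hne
    have e1 : sur d s0 (s0' d) = s0 (s0' d) := by
      refine sur_other (by omega) (by omega) hne ?_
      rw [a1]; omega
    rw [h1, Sc', a1'] at e1
    have e2 := ins_mid_mem (α := A.1) (x := x) hB.up c1'.1 (show s0' d < x + 2 * k by omega)
    rw [← hs0, ← e1] at e2
    omega
  have hbb : s0' (d + 1) = s0 (d + 1) := by
    rw [← Sc, ← Sc', h1, hcc]
  have hss : s0 = s0' := by
    funext i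
    by_cases i1 : i = d
    · rw [i1, hcc]
    by_cases i2 : i = d + 1
    · rw [i2, hbb]
    by_cases i3 : i = s0 d
    · rw [i3, hcinv, ← hcc, hcinv']
    by_cases i4 : i = s0 (d + 1)
    · rw [i4, hbinv, ← hbb, hbinv']
    have e1 := congrFun h1 i
    rw [sur_other i1 i2 i3 i4, sur_other i1 i2 (by rw [hcc]; exact i3)
      (by rw [hbb]; exact i4)] at e1
    exact e1
  obtain ⟨r1, r2⟩ := ins_inj hB.up hB'.up hss
  obtain ⟨r3, r4⟩ := ins_inj hB.down hB'.down h2
  exact ⟨Prod.ext r1 r3, Prod.ext r2 r4⟩

end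

end Pool.Agent.Helper976.Meander
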