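import Pool.Agent.Helper976_Meander.Part3

/-!
# Counting closed meanders
-/

namespace Pool.Agent.Helper976.Meander

open Finset

/-- the left ends of the arcs -/
def opn (n : ℕ) (σ : ℕ → ℕ) : Finset ℕ := (range (2 * n)).filter (fun i => i < σ i)

theorem mea_injOn (n : ℕ) : Set.InjOn (fun p : (ℕ → ℕ) × (ℕ → ℕ) => (opn n p.1, opn n p.2))
    {p | Meander n p} := by
  intro p hp q hq h
  have hp' : Meander n p := hp
  have hq' : Meander n q := hq
  have h1 : opn n p.1 = opn n q.1 := (Prod.ext_iff.1 h).1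
  have h2 : opn n p.2 = opn n q.2 := (Prod.ext_iff.1 h).2
  exact Prod.ext (hp'.up.ext_open hq'.up h1) (hp'.down.ext_open hq'.down h2)

theorem mea_finite (n : ℕ) : {p : (ℕ → ℕ) × (ℕ → ℕ) | Meander n p}.Finite := by
  refine Set.Finite.of_injOn (f := fun p => (opn n p.1, opn n p.2))
    (t := ↑((range (2 * n)).powerset ×ˢ (range (2 * n)).powerset)) ?_ (mea_injOn n)
    (Finset.finite_toSet _)
  intro p _
  rw [Finset.mem_coe, Finset.mem_product, Finset.mem_powerset, Finset.mem_powerset]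
  exact ⟨Finset.filter_subset _ _, Finset.filter_subset _ _⟩

/-- the finite set of all meanders of order `n` -/
noncomputable def F (n : ℕ) : Finset ((ℕ → ℕ) × (ℕ → ℕ)) := (mea_finite n).toFinset

/-- the number of closed meanders of order `n` -/
noncomputable def M (n : ℕ) : ℕ := (F n).card

theorem mem_F {n : ℕ} {p : (ℕ → ℕ) × (ℕ → ℕ)} : p ∈ F n ↔ Meander n p := by
  unfold F; rw [Set.Finite.mem_toFinset]; rfl

theorem M_eq_ncard (n : ℕ) : M n = {p : (ℕ → ℕ) × (ℕ → ℕ) | Meander n p}.ncard := by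
  unfold M F; rw [Set.ncard_eq_toFinset_card _ (mea_finite n)]

theorem M_le (n : ℕ) : M n ≤ 16 ^ n := by
  have h : (F n).card ≤ ((range (2 * n)).powerset ×ˢ (range (2 * n)).powerset).card := by
    refine Finset.card_le_card_of_injOn (fun p => (opn n p.1, opn n p.2)) ?_ ?_
    · intro p _
      rw [Finset.mem_coe, Finset.mem_product, Finset.mem_powerset, Finset.mem_powerset]
      exact ⟨Finset.filter_subset _ _, Finset.filter_subset _ _⟩
    · intro p hp q hq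
      exact mea_injOn n (mem_F.1 hp) (mem_F.1 hq)
  rw [Finset.card_product, Finset.card_powerset, card_range] at h
  unfold M
  refine h.trans (le_of_eq ?_)
  rw [← mul_pow, pow_mul]
  norm_num

/-- meanders with a marked left end of an upper arc -/
noncomputable def T (n : ℕ) : Finset (Σ _ : (ℕ → ℕ) × (ℕ → ℕ), ℕ) :=
  (F n).sigma (fun p => opn n p.1)

theorem card_T (n : ℕ) : (T n).card = M n * n := by
  unfold T M
  rw [Finset.card_sigma, Finset.sum_const_nat]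
  intro p hp
  exact (mem_F.1 hp).up.card_open

theorem mem_T {n : ℕ} {q : Σ _ : (ℕ → ℕ) × (ℕ → ℕ), ℕ} :
    q ∈ T n ↔ Meander n q.1 ∧ q.2 < 2 * n ∧ q.2 < q.1.1 q.2 := by
  unfold T opn
  rw [Finset.mem_sigma, mem_F, Finset.mem_filter, mem_range]

/-- `n M_n² ≤ M_{2 n}` -/
theorem n_M_sq (n : ℕ) (hn : 0 < n) : n * (M n * M n) ≤ M (2 * n) := by
  have h : (T n ×ˢ F n).card ≤ (F (2 * n)).card := by
    refine Finset.card_le_card_of_injOn (fun q => glue q.1.2 n q.1.1 q.2) ?_ ?_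
    · intro q hq
      obtain ⟨h1, h2⟩ := Finset.mem_product.1 hq
      obtain ⟨a1, a2, a3⟩ := mem_T.1 h1
      rw [Finset.mem_coe, mem_F, two_mul]
      exact glue_meander hn a1 (mem_F.1 h2) a2 a3
    · intro q hq q' hq' he
      obtain ⟨h1, h2⟩ := Finset.mem_product.1 hq
      obtain ⟨a1, a2, a3⟩ := mem_T.1 h1
      obtain ⟨h1', h2'⟩ := Finset.mem_product.1 hq'
      obtain ⟨a1', a2', a3'⟩ := mem_T.1 h1'
      have g2 := mem_F.1 h2
      have g2' := mem_F.1 h2'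
      have c1 := glue_cut hn a1 g2 a2 a3
      have c2 := glue_cut hn a1' g2' a2' a3'
      have he' : glue q.1.2 n q.1.1 q.2 = glue q'.1.2 n q'.1.1 q'.2 := he
      have hm := glue_meander hn a1 g2 a2 a3
      rw [← he'] at c2
      rw [← two_mul] at c1 c2 hm
      have hx : q.1.2 = q'.1.2 := cut_unique_half hm.up hm.down hm.conn hn c1 c2
      obtain ⟨⟨A, x⟩, B⟩ := q
      obtain ⟨⟨A', x'⟩, B'⟩ := q'
      simp only at hx he' a1 a2 a3 a1' a2' a3' g2 g2'
      subst hx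
      obtain ⟨r1, r2⟩ := glue_inj hn a1 g2 a1' g2' a2 a3 a3' he'
      rw [r1, r2]
  rw [Finset.card_product, card_T] at h
  unfold M at h ⊢
  calc n * ((F n).card * (F n).card) = (F n).card * n * (F n).card := by ring
    _ ≤ _ := h

open Classical in
/-- the right ends of the cut intervals -/
noncomputable def R (N : ℕ) (p : (ℕ → ℕ) × (ℕ → ℕ)) : Finset ℕ :=
  (range (2 * N)).filter (fun d => ∃ x, Cut N p.1 p.2 x d)

theorem mem_R {N : ℕ} {p : (ℕ → ℕ) × (ℕ → ℕ)} {d : ℕ} :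
    d ∈ R N p ↔ ∃ x, Cut N p.1 p.2 x d := by
  classical
  unfold R
  simp only [Finset.mem_filter, mem_range]
  constructor
  · exact fun h => h.2
  · rintro ⟨x, hx⟩
    exact ⟨by have := hx.2.1; omega, x, hx⟩

/-- the number of cut intervals -/
noncomputable def c (N : ℕ) (p : (ℕ → ℕ) × (ℕ → ℕ)) : ℕ := (R N p).card

theorem c_le {N : ℕ} {p : (ℕ → ℕ) × (ℕ → ℕ)} (hp : Meander N p) : c N p ≤ N := by
  have h1 : R N p ⊆ opn N p.1 := by
    intro d hd
    obtain ⟨x, hx⟩ := mem_R.1 hd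
    unfold opn
    rw [Finset.mem_filter, mem_range]
    obtain ⟨h1, h2, h3, h4, h5⟩ := hx
    omega
  have h2 := Finset.card_le_card h1
  have h3 : (opn N p.1).card = N := hp.up.card_open
  unfold c
  omega

/-- gluings of total order `N` -/
noncomputable def G (N : ℕ) : Finset (Σ _ : ℕ, (Σ _ : (ℕ → ℕ) × (ℕ → ℕ), ℕ) × ((ℕ → ℕ) × (ℕ → ℕ))) :=
  (Ico 1 N).sigma (fun b => T (N - b) ×ˢ F b)

theorem mem_G {N : ℕ} {q : Σ _ : ℕ, (Σ _ : (ℕ → ℕ) × (ℕ → ℕ), ℕ) × ((ℕ → ℕ) × (ℕ → ℕ))} :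
    q ∈ G N ↔ (1 ≤ q.1 ∧ q.1 < N) ∧ (Meander (N - q.1) q.2.1.1 ∧ q.2.1.2 < 2 * (N - q.1) ∧
      q.2.1.2 < q.2.1.1.1 q.2.1.2) ∧ Meander q.1 q.2.2 := by
  unfold G
  rw [Finset.mem_sigma, Finset.mem_Ico, Finset.mem_product, mem_T, mem_F]

theorem card_G (N : ℕ) : (G N).card = ∑ b ∈ Ico 1 N, (N - b) * M (N - b) * M b := by
  unfold G
  rw [Finset.card_sigma]
  refine Finset.sum_congr rfl ?_
  intro b _
  rw [Finset.card_product, card_T]
  unfold M
  ring

/-- the gluing map -/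
def gmap (q : Σ _ : ℕ, (Σ _ : (ℕ → ℕ) × (ℕ → ℕ), ℕ) × ((ℕ → ℕ) × (ℕ → ℕ))) :
    Σ _ : (ℕ → ℕ) × (ℕ → ℕ), ℕ :=
  ⟨glue q.2.1.2 q.1 q.2.1.1 q.2.2, q.2.1.2 + 2 * q.1 - 1⟩

theorem gmap_mem {N : ℕ} {q : Σ _ : ℕ, (Σ _ : (ℕ → ℕ) × (ℕ → ℕ), ℕ) × ((ℕ → ℕ) × (ℕ → ℕ))}
    (hq : q ∈ G N) : gmap q ∈ (F N).sigma (fun p => R N p) := by
  obtain ⟨⟨h1, h2⟩, ⟨h3, h4, h5⟩, h6⟩ := mem_G.1 hq
  have e : N - q.1 + q.1 = N := by omega
  have g1 := glue_meander (by omega) h3 h6 h4 h5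
  have g2 := glue_cut (by omega) h3 h6 h4 h5
  rw [e] at g1 g2
  unfold gmap
  rw [Finset.mem_sigma]
  exact ⟨mem_F.2 g1, mem_R.2 ⟨_, g2⟩⟩

theorem gmap_injOn (N : ℕ) : Set.InjOn gmap (G N : Set _) := by
  intro q hq q' hq' he
  obtain ⟨⟨h1, h2⟩, ⟨h3, h4, h5⟩, h6⟩ := mem_G.1 hq
  obtain ⟨⟨h1', h2'⟩, ⟨h3', h4', h5'⟩, h6'⟩ := mem_G.1 hq'
  have e : N - q.1 + q.1 = N := by omega
  have e' : N - q'.1 + q'.1 = N := by omega
  have g1 := glue_meander (by omega) h3 h6 h4 h5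
  have g2 := glue_cut (by omega) h3 h6 h4 h5
  have g2' := glue_cut (by omega) h3' h6' h4' h5'
  rw [e] at g1 g2
  rw [e'] at g2'
  unfold gmap at he
  have he1 : glue q.2.1.2 q.1 q.2.1.1 q.2.2 = glue q'.2.1.2 q'.1 q'.2.1.1 q'.2.2 :=
    (Sigma.mk.inj_iff.1 he).1
  have he2 : q.2.1.2 + 2 * q.1 - 1 = q'.2.1.2 + 2 * q'.1 - 1 :=
    eq_of_heq (Sigma.mk.inj_iff.1 he).2
  rw [← he1, ← he2] at g2'
  have hx : q.2.1.2 = q'.2.1.2 := cut_unique g1.up g1.down g1.conn g2 g2'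
  have hb : q.1 = q'.1 := by omega
  obtain ⟨b, ⟨A, x⟩, B⟩ := q
  obtain ⟨b', ⟨A', x'⟩, B'⟩ := q'
  simp only at hx hb he1 h1 h2 h3 h4 h5 h6 h1' h2' h3' h4' h5' h6'
  subst hx
  subst hb
  obtain ⟨r1, r2⟩ := glue_inj (by omega) h3 h6 h3' h6' h4 h5 h5' he1
  rw [r1, r2]

/-- `∑_b (N - b) M_{N - b} M_b ≤ ∑_C c(C)` -/
theorem sum_le_sum_c (N : ℕ) :
    ∑ b ∈ Ico 1 N, (N - b) * M (N - b) * M b ≤ ∑ p ∈ F N, c N p := by
  rw [← card_G]
  have h := Finset.card_le_card_of_injOn gmap (fun q hq => gmap_mem hq) (gmap_injOn N)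
  rw [Finset.card_sigma] at h
  exact h

theorem sum_le (N : ℕ) : ∑ b ∈ Ico 1 N, (N - b) * M (N - b) * M b ≤ N * M N := by
  refine (sum_le_sum_c N).trans ?_
  have : ∑ p ∈ F N, c N p ≤ ∑ _p ∈ F N, N := Finset.sum_le_sum fun p hp => c_le (mem_F.1 hp)
  rw [Finset.sum_const, smul_eq_mul] at this
  unfold M
  rw [mul_comm]
  exact this

/-- the meander of order one -/
theorem M_one_pos : 0 < M 1 := by
  unfold M
  refine Finset.card_pos.2 ⟨(fun i => if i = 0 then 1 else if i = 1 then 0 else i,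
    fun i => if i = 0 then 1 else if i = 1 then 0 else i), mem_F.2 ⟨?_, ?_, ?_⟩⟩
  · refine ⟨?_, ?_, ?_, ?_, ?_⟩
    · intro i hi; simp only; split_ifs <;> omega
    · intro i hi; simp only; split_ifs <;> omega
    · intro i hi; rcases (by omega : i = 0 ∨ i = 1) with rfl | rfl <;> simp
    · intro i j hi hj h1 h2 h3; simp only at h2 h3; split_ifs at h2 h3 <;> omega
    · intro i hi; simp only; split_ifs <;> omega
  · refine ⟨?_, ?_, ?_, ?_, ?_⟩
    · intro i hi; simp only; split_ifs <;> omega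
    · intro i hi; simp only; split_ifs <;> omega
    · intro i hi; rcases (by omega : i = 0 ∨ i = 1) with rfl | rfl <;> simp
    · intro i j hi hj h1 h2 h3; simp only at h2 h3; split_ifs at h2 h3 <;> omega
    · intro i hi; simp only; split_ifs <;> omega
  · intro S hS
    by_cases h : S = ∅
    · left; exact h
    · right
      obtain ⟨i, hi⟩ := Finset.nonempty_iff_ne_empty.2 h
      have h01 : 0 ∈ S ∧ 1 ∈ S := by
        have := hS i hi
        have hi2 : i = 0 ∨ i = 1 := by omega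
        rcases hi2 with rfl | rfl
        · have h2 := this.2.1; simp at h2; exact ⟨hi, h2⟩
        · have h2 := this.2.1; simp at h2; exact ⟨h2, hi⟩
      ext j
      rw [mem_range]
      constructor
      · intro hj; exact (hS j hj).1
      · intro hj
        have : j = 0 ∨ j = 1 := by omega
        rcases this with rfl | rfl
        · exact h01.1
        · exact h01.2

end Pool.Agent.Helper976.Meander
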