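import Mathlib

/-!
# Growth rate and polynomial corrections from two inequalities
-/

namespace Pool.Agent.Helper976.Meander

open Filter Topology Finset

theorem double_trick (g : ℕ → ℝ) (C : ℝ) (h0 : ∀ n, 1 ≤ n → 0 ≤ g n)
    (h : ∀ n, 1 ≤ n → g n ^ 2 ≤ g (2 * n)) (hb : ∀ n : ℕ, 1 ≤ n → g n ≤ C * n) (n : ℕ)
    (hn : 1 ≤ n) : g n ≤ 1 := by
  by_contra hlt
  push Not at hlt
  have hpos : ∀ j : ℕ, 1 ≤ 2 ^ j * n := fun j => Nat.mul_pos (Nat.pow_pos (by norm_num)) hn
  have key : ∀ j : ℕ, g n ^ (2 ^ j) ≤ g (2 ^ j * n) := by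
    intro j
    induction j with
    | zero => simp
    | succ j ih =>
      have h1 := h (2 ^ j * n) (hpos j)
      have h2 : 0 ≤ g n ^ (2 ^ j) := pow_nonneg (h0 n hn) _
      calc g n ^ (2 ^ (j + 1)) = (g n ^ (2 ^ j)) ^ 2 := by rw [← pow_mul, pow_succ]
        _ ≤ (g (2 ^ j * n)) ^ 2 := pow_le_pow_left₀ h2 ih 2
        _ ≤ g (2 * (2 ^ j * n)) := h1
        _ = g (2 ^ (j + 1) * n) := by rw [pow_succ]; ring_nf
  have lim : Tendsto (fun k : ℕ => (k : ℝ) / g n ^ k) atTop (𝓝 0) := by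
    simpa using tendsto_pow_const_div_const_pow_of_one_lt 1 hlt
  have lim2 : Tendsto (fun j : ℕ => C * n * (((2 ^ j : ℕ) : ℝ) / g n ^ (2 ^ j))) atTop
      (𝓝 (C * n * 0)) :=
    (lim.comp (tendsto_pow_atTop_atTop_of_one_lt (by norm_num : 1 < 2))).const_mul _
  have hall : ∀ j : ℕ, 1 ≤ C * n * (((2 ^ j : ℕ) : ℝ) / g n ^ (2 ^ j)) := by
    intro j
    have h1 := (key j).trans (hb _ (hpos j))
    have h2 : 0 < g n ^ (2 ^ j) := pow_pos (by linarith) _
    rw [← mul_div_assoc, le_div_iff₀ h2, one_mul]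
    push_cast at h1 ⊢
    linarith
  have := ge_of_tendsto' lim2 hall
  rw [mul_zero] at this
  linarith

section
variable {M : ℕ → ℕ} (h1 : 0 < M 1)
  (h3 : ∀ N, ∑ b ∈ Ico 1 N, (N - b) * M (N - b) * M b ≤ N * M N)
include h3

theorem sub_mul {a b : ℕ} (ha : 1 ≤ a) (hb : 1 ≤ b) : M a * M b ≤ 2 * M (a + b) := by
  have h := h3 (a + b)
  have e1 : (a + b - b) * M (a + b - b) * M b ≤ (a + b) * M (a + b) := by
    refine le_trans ?_ h
    exact Finset.single_le_sum (f := fun b' => (a + b - b') * M (a + b - b') * M b')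
      (fun _ _ => Nat.zero_le _) (Finset.mem_Ico.2 ⟨hb, by omega⟩)
  have e2 : (a + b - a) * M (a + b - a) * M a ≤ (a + b) * M (a + b) := by
    refine le_trans ?_ h
    exact Finset.single_le_sum (f := fun b' => (a + b - b') * M (a + b - b') * M b')
      (fun _ _ => Nat.zero_le _) (Finset.mem_Ico.2 ⟨ha, by omega⟩)
  rw [show a + b - b = a by omega] at e1
  rw [show a + b - a = b by omega] at e2
  refine Nat.le_of_mul_le_mul_left ?_ (show 0 < a + b by omega)
  calc (a + b) * (M a * M b) = a * M a * M b + b * M b * M a := by ring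
    _ ≤ (a + b) * M (a + b) + (a + b) * M (a + b) := Nat.add_le_add e1 e2
    _ = (a + b) * (2 * M (a + b)) := by ring

include h1

theorem pos_of {n : ℕ} (hn : 1 ≤ n) : 0 < M n := by
  induction n, hn using Nat.le_induction with
  | base => exact h1
  | succ n hn ih =>
    have := sub_mul h3 hn le_rfl
    have h2 : 0 < M n * M 1 := Nat.mul_pos ih h1
    omega

/-- the exponential growth rate exists -/
theorem exists_rate (h4 : ∀ n, M n ≤ 16 ^ n) : ∃ ρ : ℝ, 1 ≤ ρ ∧
    Tendsto (fun n : ℕ => (M n : ℝ) ^ (1 / (n : ℝ))) atTop (𝓝 ρ) ∧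
    ∀ n, 1 ≤ n → (M n : ℝ) ≤ 2 * ρ ^ n := by
  set u : ℕ → ℝ := fun n => if n = 0 then 0 else Real.log 2 - Real.log (M n) with hu
  have hMpos : ∀ n, 1 ≤ n → (0 : ℝ) < M n := fun n hn => by exact_mod_cast pos_of h1 h3 hn
  have hun : ∀ n, 1 ≤ n → u n = Real.log 2 - Real.log (M n) := by
    intro n hn; simp only [hu]; rw [if_neg (by omega)]
  have hsub : Subadditive u := by
    intro m n
    rcases Nat.eq_zero_or_pos m with rfl | hm
    · simp [hu]
    rcases Nat.eq_zero_or_pos n with rfl | hn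
    · simp [hu]
    rw [hun m hm, hun n hn, hun (m + n) (by omega)]
    have h := sub_mul h3 hm hn
    have h' : (M m : ℝ) * M n ≤ 2 * M (m + n) := by exact_mod_cast h
    have h2 := Real.log_le_log (mul_pos (hMpos m hm) (hMpos n hn)) h'
    rw [Real.log_mul (hMpos m hm).ne' (hMpos n hn).ne',
      Real.log_mul (by norm_num) (hMpos (m + n) (by omega)).ne'] at h2
    linarith
  have hlog2 : 0 ≤ Real.log 2 := Real.log_nonneg (by norm_num)
  have hbdd : BddBelow (Set.range fun n => u n / n) := by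
    refine ⟨-Real.log 16, ?_⟩
    rintro _ ⟨n, rfl⟩
    rcases Nat.eq_zero_or_pos n with rfl | hn
    · simp only [hu, Nat.cast_zero, div_zero]
      have : 0 ≤ Real.log 16 := Real.log_nonneg (by norm_num)
      linarith
    · simp only
      rw [hun n hn, le_div_iff₀ (by exact_mod_cast hn)]
      have h2 : (M n : ℝ) ≤ 16 ^ n := by exact_mod_cast h4 n
      have h5 := Real.log_le_log (hMpos n hn) h2
      rw [Real.log_pow] at h5
      linarith
  have hlim := hsub.tendsto_lim hbdd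
  set L := hsub.lim with hL
  have hle : ∀ n, 1 ≤ n → (M n : ℝ) ≤ 2 * (Real.exp (-L)) ^ n := by
    intro n hn
    have h5 := hsub.lim_le_div hbdd (n := n) (by omega)
    rw [hun n hn, le_div_iff₀ (by exact_mod_cast hn)] at h5
    rw [← Real.exp_nat_mul]
    have h6 : Real.log (M n) ≤ Real.log 2 + n * (-L) := by rw [← hL] at h5; linarith
    calc (M n : ℝ) = Real.exp (Real.log (M n)) := (Real.exp_log (hMpos n hn)).symm
      _ ≤ Real.exp (Real.log 2 + n * (-L)) := Real.exp_le_exp.2 h6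
      _ = 2 * Real.exp (n * (-L)) := by rw [Real.exp_add, Real.exp_log (by norm_num)]
  have htend : Tendsto (fun n : ℕ => (M n : ℝ) ^ (1 / (n : ℝ))) atTop (𝓝 (Real.exp (-L))) := by
    have t1 : Tendsto (fun n : ℕ => Real.log 2 / (n : ℝ)) atTop (𝓝 0) :=
      tendsto_const_div_atTop_nhds_zero_nat _
    have t2 := t1.sub hlim
    rw [zero_sub] at t2
    have t3 := (Real.continuous_exp.tendsto (-L)).comp t2
    refine t3.congr' ?_
    filter_upwards [eventually_ge_atTop 1] with n hn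
    have hn' : (0 : ℝ) < n := by exact_mod_cast hn
    simp only [Function.comp_apply]
    rw [hun n hn, Real.rpow_def_of_pos (hMpos n hn)]
    congr 1
    field_simp
    ring
  refine ⟨Real.exp (-L), ?_, htend, hle⟩
  refine ge_of_tendsto htend ?_
  filter_upwards [eventually_ge_atTop 1] with n hn
  have h5 : (1 : ℝ) ≤ M n := by exact_mod_cast pos_of h1 h3 hn
  exact Real.one_le_rpow h5 (by positivity)

end

/-- `2 n M_n ≤ ρ ^ n` -/
theorem two_n_le {M : ℕ → ℕ} {ρ : ℝ} (hρ : 1 ≤ ρ) (h2 : ∀ n, 0 < n → n * (M n * M n) ≤ M (2 * n))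
    (hle : ∀ n, 1 ≤ n → (M n : ℝ) ≤ 2 * ρ ^ n) (n : ℕ) (hn : 1 ≤ n) :
    2 * n * (M n : ℝ) ≤ ρ ^ n := by
  have hρ0 : 0 < ρ := by linarith
  have := double_trick (fun n => 2 * n * (M n : ℝ) / ρ ^ n) 4 (fun n _ => by positivity) ?_ ?_ n hn
  · rw [div_le_one (by positivity)] at this
    exact this
  · intro n hn
    have h : ((n * (M n * M n) : ℕ) : ℝ) ≤ (M (2 * n) : ℝ) := by exact_mod_cast h2 n hn
    push_cast at h ⊢
    rw [div_pow, div_le_div_iff₀ (by positivity) (by positivity), ← pow_mul]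
    have hp : 0 < ρ ^ (n * 2) := by positivity
    rw [mul_comm n 2] at hp ⊢
    have hn0 : (0 : ℝ) ≤ n := Nat.cast_nonneg n
    nlinarith [mul_le_mul_of_nonneg_left h (by positivity : (0 : ℝ) ≤ 4 * n * ρ ^ (2 * n))]
  · intro n hn
    rw [div_le_iff₀ (by positivity)]
    have := hle n hn
    have hn0 : (0 : ℝ) ≤ n := Nat.cast_nonneg n
    nlinarith [mul_le_mul_of_nonneg_left this (by positivity : (0 : ℝ) ≤ 2 * n)]

end Pool.Agent.Helper976.Meander
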