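import Mathlib

/-!
# Pure power laws
-/

namespace Pool.Agent.Helper976.Meander

open Filter Topology Finset

/-- if `a_n ~ C R^(2 n) / n^α` then the growth rate is `R^2`, and `a_n n^α / ρ^n → C` -/
theorem power_law {a : ℕ → ℕ} {ρ C R α : ℝ} (hpos : ∀ n, 1 ≤ n → 0 < a n) (hρ : 1 ≤ ρ)
    (hlim : Tendsto (fun n : ℕ => (a n : ℝ) ^ (1 / (n : ℝ))) atTop (𝓝 ρ)) (hC : 0 < C) (hR : 0 < R)
    (h : Tendsto (fun n : ℕ => (a n : ℝ) / (C * R ^ (2 * n) / (n : ℝ) ^ α)) atTop (𝓝 1)) :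
    R ^ 2 = ρ ∧ Tendsto (fun n : ℕ => (a n : ℝ) / ρ ^ n * (n : ℝ) ^ α) atTop (𝓝 C) := by
  have hρ0 : 0 < ρ := by linarith
  have hlog : Tendsto (fun n : ℕ => Real.log (a n) / n) atTop (𝓝 (Real.log ρ)) := by
    have h1 := ((Real.continuousAt_log hρ0.ne').tendsto).comp hlim
    refine h1.congr' ?_
    filter_upwards [eventually_ge_atTop 1] with n hn
    have hn' : (0 : ℝ) < a n := by exact_mod_cast hpos n hn
    simp only [Function.comp_apply]
    rw [Real.log_rpow hn']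
    ring
  have h2 : Tendsto (fun n : ℕ => Real.log ((a n : ℝ) / (C * R ^ (2 * n) / (n : ℝ) ^ α)) / n)
      atTop (𝓝 0) := by
    have h3 := ((Real.continuousAt_log one_ne_zero).tendsto).comp h
    rw [Real.log_one] at h3
    have h4 : Tendsto (fun n : ℕ => (1 : ℝ) / n) atTop (𝓝 0) := tendsto_one_div_atTop_nhds_zero_nat
    have h5 := h3.mul h4
    rw [mul_zero] at h5
    refine h5.congr fun n => ?_
    simp only [Function.comp_apply]
    ring
  have hlogn : Tendsto (fun n : ℕ => Real.log (n : ℝ) / n) atTop (𝓝 0) := by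
    have h6 := (Real.isLittleO_log_id_atTop.tendsto_div_nhds_zero).comp
      (tendsto_natCast_atTop_atTop (R := ℝ))
    refine h6.congr fun n => ?_
    simp [Function.comp_apply]
  have hconst : Tendsto (fun n : ℕ => Real.log C / n) atTop (𝓝 0) :=
    tendsto_const_div_atTop_nhds_zero_nat _
  have h7 : Tendsto (fun n : ℕ => Real.log (a n) / n) atTop (𝓝 (2 * Real.log R)) := by
    have h8 := ((h2.add hconst).sub (hlogn.const_mul α)).add_const (2 * Real.log R)
    rw [zero_add, mul_zero, sub_zero, zero_add] at h8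
    refine h8.congr' ?_
    filter_upwards [eventually_ge_atTop 1] with n hn
    have hn' : (0 : ℝ) < a n := by exact_mod_cast hpos n hn
    have hn0 : (0 : ℝ) < n := by exact_mod_cast hn
    have e1 : (0 : ℝ) < (n : ℝ) ^ α := Real.rpow_pos_of_pos hn0 _
    rw [Real.log_div hn'.ne' (by positivity), Real.log_div (by positivity) e1.ne',
      Real.log_mul hC.ne' (by positivity), Real.log_pow, Real.log_rpow hn0]
    push_cast
    field_simp
    ring
  have h9 : Real.log ρ = 2 * Real.log R := tendsto_nhds_unique hlog h7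
  have hR2 : R ^ 2 = ρ := by
    have : Real.log (R ^ 2) = Real.log ρ := by rw [Real.log_pow, h9]; norm_num
    exact Real.log_injOn_pos (Set.mem_Ioi.2 (by positivity)) (Set.mem_Ioi.2 hρ0) this
  refine ⟨hR2, ?_⟩
  have h10 := h.const_mul C
  rw [mul_one] at h10
  refine h10.congr' ?_
  filter_upwards [eventually_ge_atTop 1] with n hn
  have hn0 : (0 : ℝ) < n := by exact_mod_cast hn
  have e1 : (0 : ℝ) < (n : ℝ) ^ α := Real.rpow_pos_of_pos hn0 _
  rw [← hR2, ← pow_mul]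
  field_simp

/-- a power law and `2 n a_n ≤ ρ^n` give `α ≥ 1` -/
theorem alpha_ge_one {a : ℕ → ℕ} {ρ C α : ℝ} (hρ : 1 ≤ ρ) (hC : 0 < C)
    (h : Tendsto (fun n : ℕ => (a n : ℝ) / ρ ^ n * (n : ℝ) ^ α) atTop (𝓝 C))
    (hb : ∀ n : ℕ, 1 ≤ n → 2 * n * (a n : ℝ) ≤ ρ ^ n) : 1 ≤ α := by
  by_contra hlt
  push Not at hlt
  have hρ0 : 0 < ρ := by linarith
  have h1 : Tendsto (fun n : ℕ => (n : ℝ) ^ (-(1 - α))) atTop (𝓝 0) :=
    (tendsto_rpow_neg_atTop (by linarith)).comp tendsto_natCast_atTop_atTop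
  have h2 : C ≤ 0 := by
    refine le_of_tendsto_of_tendsto h h1 ?_
    filter_upwards [eventually_ge_atTop 1] with n hn
    have hn0 : (0 : ℝ) < n := by exact_mod_cast hn
    have e1 : (0 : ℝ) < (n : ℝ) ^ α := Real.rpow_pos_of_pos hn0 _
    have e2 : (n : ℝ) ^ (-(1 - α)) = (n : ℝ) ^ α / n := by
      rw [show -(1 - α) = α - 1 by ring, Real.rpow_sub_one hn0.ne']
    rw [e2, div_mul_eq_mul_div, div_le_div_iff₀ (by positivity) hn0]
    have h3 := hb n hn
    have h4 : 0 ≤ (a n : ℝ) := Nat.cast_nonneg _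
    nlinarith [mul_le_mul_of_nonneg_left h3 e1.le, mul_nonneg (mul_nonneg h4 hn0.le) e1.le]
  linarith

end Pool.Agent.Helper976.Meander
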