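import Pool.Agent.Helper976_Meander.Part4

/-!
# Every cut interval comes from a gluing
-/

namespace Pool.Agent.Helper976.Meander

open Finset

/-- restriction to the block `[x, x + 2 k)` -/
def inner (x k : ℕ) (ω : ℕ → ℕ) (j : ℕ) : ℕ := if j < 2 * k then ω (x + j) - x else j

/-- restriction to the complement of the block -/
def outer (x k : ℕ) (ω : ℕ → ℕ) (j : ℕ) : ℕ :=
  if ω (if j < x then j else j + 2 * k) < x then ω (if j < x then j else j + 2 * k)
  else ω (if j < x then j else j + 2 * k) - 2 * k

section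
variable {x m k : ℕ} {ω : ℕ → ℕ}

theorem out_closed (h : Arch (m + k) ω) (hc : ∀ i, x ≤ i → i < x + 2 * k → x ≤ ω i ∧ ω i < x + 2 * k)
    (hx : x ≤ 2 * m) {i : ℕ} (hi : i < x ∨ x + 2 * k ≤ i) : ω i < x ∨ x + 2 * k ≤ ω i := by
  by_cases hN : i < 2 * (m + k)
  · by_contra hcon
    have h1 := hc (ω i) (by omega) (by omega)
    rw [h.inv i hN] at h1
    omega
  · rw [h.out i (by omega)]; exact hi

theorem inner_arch (h : Arch (m + k) ω)
    (hc : ∀ i, x ≤ i → i < x + 2 * k → x ≤ ω i ∧ ω i < x + 2 * k) (hx : x ≤ 2 * m) :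
    Arch k (inner x k ω) := by
  refine ⟨?_, ?_, ?_, ?_, ?_⟩
  · intro i hi
    unfold inner; rw [if_pos hi]
    have := hc (x + i) (by omega) (by omega)
    omega
  · intro i hi
    unfold inner; rw [if_pos hi]
    have := hc (x + i) (by omega) (by omega)
    have := h.ne (x + i) (by omega)
    omega
  · intro i hi
    have h1 := hc (x + i) (by omega) (by omega)
    have h2 := h.inv (x + i) (by omega)
    unfold inner; rw [if_pos hi, if_pos (by omega), show x + (ω (x + i) - x) = ω (x + i) by omega, h2]
    omega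
  · intro i j hi hj hij h2 h3
    unfold inner at h2 h3
    rw [if_pos hi] at h2 h3
    rw [if_pos hj] at h3
    have a1 := hc (x + i) (by omega) (by omega)
    have a2 := hc (x + j) (by omega) (by omega)
    exact h.nc (x + i) (x + j) (by omega) (by omega) (by omega) (by omega) (by omega)
  · intro i hi
    unfold inner; rw [if_neg (by omega)]

theorem outer_arch (h : Arch (m + k) ω)
    (hc : ∀ i, x ≤ i → i < x + 2 * k → x ≤ ω i ∧ ω i < x + 2 * k) (hx : x ≤ 2 * m) :
    Arch m (outer x k ω) := by
  have sh : ∀ j : ℕ, (j < x ∧ (if j < x then j else j + 2 * k) = j) ∨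
      (x ≤ j ∧ (if j < x then j else j + 2 * k) = j + 2 * k) := by
    intro j; split_ifs <;> omega
  have oc : ∀ j : ℕ, ω (if j < x then j else j + 2 * k) < x ∨
      x + 2 * k ≤ ω (if j < x then j else j + 2 * k) := by
    intro j
    refine out_closed h hc hx ?_
    rcases sh j with hj | hj <;> omega
  refine ⟨?_, ?_, ?_, ?_, ?_⟩
  · intro i hi
    have h1 := h.lt (if i < x then i else i + 2 * k) (by rcases sh i with hj | hj <;> omega)
    unfold outer
    split_ifs with h2 h3 <;> simp_all <;> omega
  · intro i hi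
    have h1 := h.ne (if i < x then i else i + 2 * k) (by rcases sh i with hj | hj <;> omega)
    have h2 := oc i
    unfold outer
    rcases sh i with ⟨hj, e⟩ | ⟨hj, e⟩ <;> rw [e] at h1 h2 ⊢ <;> split_ifs <;> omega
  · intro i hi
    have h1 := h.inv (if i < x then i else i + 2 * k) (by rcases sh i with hj | hj <;> omega)
    have h2 := oc i
    have e2 : (if outer x k ω i < x then outer x k ω i else outer x k ω i + 2 * k) =
        ω (if i < x then i else i + 2 * k) := by
      unfold outer
      rcases h2 with h3 | h3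
      · rw [if_pos h3, if_pos h3]
      · simp only [if_neg (show ¬ ω (if i < x then i else i + 2 * k) < x by omega)]
        rw [if_neg (by omega)]; omega
    have eo : ∀ j, outer x k ω j = if ω (if j < x then j else j + 2 * k) < x then
        ω (if j < x then j else j + 2 * k) else ω (if j < x then j else j + 2 * k) - 2 * k :=
      fun _ => rfl
    have e3 : outer x k ω (outer x k ω i) =
        if (if i < x then i else i + 2 * k) < x then (if i < x then i else i + 2 * k)
        else (if i < x then i else i + 2 * k) - 2 * k := by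
      rw [eo (outer x k ω i), e2, h1]
    rw [e3]
    split_ifs <;> omega
  · intro i j hi hj hij h2 h3
    have a1 := oc i
    have a2 := oc j
    have hn : ¬ ((if j < x then j else j + 2 * k) < ω (if i < x then i else i + 2 * k) ∧
        ω (if i < x then i else i + 2 * k) < ω (if j < x then j else j + 2 * k)) := by
      rintro ⟨b1, b2⟩
      refine h.nc _ _ ?_ ?_ ?_ b1 b2
      · rcases sh i with hj | hj <;> omega
      · rcases sh j with hj | hj <;> omega
      · rcases sh i with hj | hj <;> rcases sh j with hj' | hj' <;> omega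
    unfold outer at h2 h3
    rcases sh i with ⟨hj, e⟩ | ⟨hj, e⟩ <;> rcases sh j with ⟨hj', e'⟩ | ⟨hj', e'⟩ <;>
      rw [e] at h2 h3 a1 hn <;> rw [e'] at h3 a2 hn <;> split_ifs at h2 h3 <;> omega
  · intro i hi
    unfold outer
    rw [if_neg (show ¬ i < x by omega)]
    rw [h.out (i + 2 * k) (by omega), if_neg (by omega)]
    omega

theorem ins_restr (h : Arch (m + k) ω)
    (hc : ∀ i, x ≤ i → i < x + 2 * k → x ≤ ω i ∧ ω i < x + 2 * k) (hx : x ≤ 2 * m) :
    ins x k (outer x k ω) (inner x k ω) = ω := by
  funext i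
  have oc : ∀ j : ℕ, j < x ∨ x + 2 * k ≤ j → ω j < x ∨ x + 2 * k ≤ ω j :=
    fun j hj => out_closed h hc hx hj
  rcases Nat.lt_or_ge i x with h1 | h1
  · rw [ins_left h1]
    have h2 := oc i (Or.inl h1)
    unfold outer
    rw [if_pos h1]
    split_ifs <;> omega
  · rcases Nat.lt_or_ge i (x + 2 * k) with h2 | h2
    · rw [ins_mid h1 h2]
      unfold inner
      rw [if_pos (by omega), show x + (i - x) = i by omega]
      have := hc i h1 h2
      omega
    · rw [ins_right h2]
      have h3 := oc i (Or.inr h2)
      unfold outer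
      rw [if_neg (show ¬ i - 2 * k < x by omega), show i - 2 * k + 2 * k = i by omega]
      split_ifs <;> omega

/-- the inverse surgery -/
def rus (d c b : ℕ) (σ : ℕ → ℕ) (i : ℕ) : ℕ :=
  if i = c then d else if i = d then c else if i = d + 1 then b else if i = b then d + 1 else σ i

theorem conn_of_point {n : ℕ} {α β : ℕ → ℕ} (hα : Arch n α) (hβ : Arch n β) (p : ℕ)
    (h : ∀ S : Finset ℕ, (∀ i ∈ S, i < 2 * n ∧ α i ∈ S ∧ β i ∈ S) → p ∉ S → S = ∅) :
    Conn n α β := by
  intro S hS
  by_cases hp : p ∈ S
  · right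
    have h1 := h (range (2 * n) \ S) (by
      intro i hi
      have hi' := Finset.mem_sdiff.1 hi
      have hiN := mem_range.1 hi'.1
      refine ⟨hiN, Finset.mem_sdiff.2 ⟨mem_range.2 (hα.lt i hiN), ?_⟩,
        Finset.mem_sdiff.2 ⟨mem_range.2 (hβ.lt i hiN), ?_⟩⟩
      · intro hc
        have := (hS _ hc).2.1
        rw [hα.inv i hiN] at this
        exact hi'.2 this
      · intro hc
        have := (hS _ hc).2.2
        rw [hβ.inv i hiN] at this
        exact hi'.2 this) (by
      intro hc
      exact (Finset.mem_sdiff.1 hc).2 hp)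
    rw [Finset.sdiff_eq_empty_iff_subset] at h1
    exact Finset.Subset.antisymm (fun i hi => mem_range.2 (hS i hi).1) h1
  · left; exact h S hS hp

end

theorem exists_glue {N : ℕ} {C : (ℕ → ℕ) × (ℕ → ℕ)} (hC : Meander N C) {x d : ℕ}
    (hcut : Cut N C.1 C.2 x d) : ∃ k m A B, 0 < k ∧ 0 < m ∧ m + k = N ∧ d = x + 2 * k - 1 ∧
      Meander m A ∧ Meander k B ∧ x < 2 * m ∧ x < A.1 x ∧ C = glue x k A B := by
  obtain ⟨σ, τ⟩ := C
  obtain ⟨hσ, hτ, hconn⟩ := hC
  obtain ⟨h1, h2, h3, h4, c, hc1, hc2, hc3, hc4⟩ := hcut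
  simp only at hσ hτ hconn h3 h4 hc3 hc4
  -- the length of the interval is even
  have hev : Even (Icc x d).card := by
    refine even_card_of_involution _ τ ?_
    intro i hi
    have hi' := mem_Icc.1 hi
    have := h3 i hi'.1 hi'.2
    exact ⟨mem_Icc.2 this, hτ.ne i (by omega), hτ.inv i (by omega)⟩
  rw [Nat.card_Icc] at hev
  obtain ⟨k, hk⟩ := hev
  obtain ⟨m, hm⟩ : ∃ m, m + k = N := ⟨N - k, by omega⟩
  subst hm
  have hd : d = x + 2 * k - 1 := by omega
  have hci := hσ.inv c (by omega)
  have hdi := hσ.inv d (by omega)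
  have hbl := hσ.lt c (by omega)
  rw [h4] at hdi
  set b := σ c with hb
  set s0 := rus d c b σ with hs0
  have Rc : s0 c = d := by rw [hs0]; unfold rus; rw [if_pos rfl]
  have Rd : s0 d = c := by rw [hs0]; unfold rus; rw [if_neg (by omega), if_pos rfl]
  have Ra : s0 (d + 1) = b := by
    rw [hs0]; unfold rus; rw [if_neg (by omega), if_neg (by omega), if_pos rfl]
  have Rb : s0 b = d + 1 := by
    rw [hs0]; unfold rus; rw [if_neg (by omega), if_neg (by omega), if_neg (by omega), if_pos rfl]
  have Ro : ∀ i, i ≠ c → i ≠ d → i ≠ d + 1 → i ≠ b → s0 i = σ i := by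
    intro i i1 i2 i3 i4
    rw [hs0]; unfold rus; rw [if_neg i1, if_neg i2, if_neg i3, if_neg i4]
  have oth : ∀ i, i < 2 * (m + k) → i ≠ c → i ≠ d → i ≠ d + 1 → i ≠ b →
      s0 i = σ i ∧ σ i ≠ c ∧ σ i ≠ d ∧ σ i ≠ d + 1 ∧ σ i ≠ b := by
    intro i hi i1 i2 i3 i4
    have hii := hσ.inv i hi
    refine ⟨Ro i i1 i2 i3 i4, ?_, ?_, ?_, ?_⟩
    · intro he; rw [he] at hii; omega
    · intro he; rw [he] at hii; omega
    · intro he; rw [he] at hii; omega
    · intro he; rw [he] at hii; omega
  have hs0arch : Arch (m + k) s0 := by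
    refine ⟨?_, ?_, ?_, ?_, ?_⟩
    · intro i hi
      by_cases i1 : i = c
      · rw [i1, Rc]; omega
      by_cases i2 : i = d
      · rw [i2, Rd]; omega
      by_cases i3 : i = d + 1
      · rw [i3, Ra]; omega
      by_cases i4 : i = b
      · rw [i4, Rb]; omega
      rw [(oth i hi i1 i2 i3 i4).1]; exact hσ.lt i hi
    · intro i hi
      by_cases i1 : i = c
      · rw [i1, Rc]; omega
      by_cases i2 : i = d
      · rw [i2, Rd]; omega
      by_cases i3 : i = d + 1
      · rw [i3, Ra]; omega
      by_cases i4 : i = b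
      · rw [i4, Rb]; omega
      rw [(oth i hi i1 i2 i3 i4).1]; exact hσ.ne i hi
    · intro i hi
      by_cases i1 : i = c
      · rw [i1, Rc, Rd]
      by_cases i2 : i = d
      · rw [i2, Rd, Rc]
      by_cases i3 : i = d + 1
      · rw [i3, Ra, Rb]
      by_cases i4 : i = b
      · rw [i4, Rb, Ra]
      obtain ⟨o1, o2, o3, o4, o5⟩ := oth i hi i1 i2 i3 i4
      rw [o1, Ro _ o2 o3 o4 o5]; exact hσ.inv i hi
    · intro i j hi hj hij hj2 hj3
      by_cases i2 : i = d
      · rw [i2, Rd] at hj2; omega
      by_cases i4 : i = b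
      · rw [i4, Rb] at hj2; omega
      by_cases j2 : j = d
      · rw [j2, Rd] at hj3; omega
      by_cases j4 : j = b
      · rw [j4, Rb] at hj3; omega
      by_cases i1 : i = c
      · rw [i1, Rc] at hj2 hj3
        rw [Ro j (by omega) (by omega) (by omega) (by omega)] at hj3
        have := hc4 j (by omega) (by omega) (by omega)
        omega
      by_cases i3 : i = d + 1
      · rw [i3, Ra] at hj2 hj3
        rw [Ro j (by omega) (by omega) (by omega) (by omega)] at hj3
        exact hσ.nc c j (by omega) hj (by omega) (by omega) (by omega)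
      rw [Ro i i1 i2 i3 i4] at hj2 hj3
      by_cases j1 : j = c
      · rw [j1, Rc] at hj3
        exact hσ.nc i c hi (by omega) (by omega) (by omega) (by omega)
      by_cases j3 : j = d + 1
      · rw [j3, Ra] at hj3
        rcases Nat.lt_or_ge i c with hic | hic
        · exact hσ.nc i c hi (by omega) hic (by omega) (by omega)
        · have := hc4 i (by omega) (by omega) (by omega)
          omega
      rw [Ro j j1 j2 j3 j4] at hj3
      exact hσ.nc i j hi hj hij hj2 hj3
    · intro i hi
      rw [Ro i (by omega) (by omega) (by omega) (by omega)]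
      exact hσ.out i hi
  have hcl1 : ∀ i, x ≤ i → i < x + 2 * k → x ≤ s0 i ∧ s0 i < x + 2 * k := by
    intro i i1 i2
    by_cases e1 : i = c
    · rw [e1, Rc]; omega
    by_cases e2 : i = d
    · rw [e2, Rd]; omega
    rw [Ro i e1 e2 (by omega) (by omega)]
    have := hc4 i i1 (by omega) e1
    omega
  have hcl2 : ∀ i, x ≤ i → i < x + 2 * k → x ≤ τ i ∧ τ i < x + 2 * k := by
    intro i i1 i2
    have := h3 i i1 (by omega)
    omega
  have hx : x ≤ 2 * m := by omega
  have hsur : sur d s0 = σ := by
    funext i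
    unfold sur
    rw [Rd, Ra]
    by_cases e1 : i = d
    · rw [if_pos e1, e1, h4]
    rw [if_neg e1]
    by_cases e2 : i = d + 1
    · rw [if_pos e2, e2, hdi]
    rw [if_neg e2]
    by_cases e3 : i = c
    · rw [if_pos e3, e3]
    rw [if_neg e3]
    by_cases e4 : i = b
    · rw [if_pos e4, e4, hci]
    rw [if_neg e4]
    exact Ro i e3 e1 e2 e4
  have g1 := ins_restr hs0arch hcl1 hx
  have g2 := ins_restr hτ hcl2 hx
  have hA1 := outer_arch hs0arch hcl1 hx
  have hA2 := outer_arch hτ hcl2 hx
  have hB1 := inner_arch hs0arch hcl1 hx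
  have hB2 := inner_arch hτ hcl2 hx
  -- connectivity of the two parts
  have hBc : Conn k (inner x k s0) (inner x k τ) := by
    refine conn_of_point hB1 hB2 (c - x) ?_
    intro S hS hp
    have key := hconn (S.image (fun j => x + j)) (by
      intro i hi
      obtain ⟨j, hj, rfl⟩ := Finset.mem_image.1 hi
      obtain ⟨j1, j2, j3⟩ := hS j hj
      have a1 := hcl1 (x + j) (by omega) (by omega)
      have a2 := hcl2 (x + j) (by omega) (by omega)
      unfold inner at j2 j3
      rw [if_pos j1] at j2 j3
      have e1 : x + j ≠ c := by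
        intro he; apply hp; rw [← he, show x + j - x = j by omega]; exact hj
      have e2 : x + j ≠ d := by
        intro he
        rw [he, Rd] at j2
        exact hp j2
      refine ⟨by omega, Finset.mem_image.2 ⟨_, j2, ?_⟩, Finset.mem_image.2 ⟨_, j3, by omega⟩⟩
      rw [Ro (x + j) e1 e2 (by omega) (by omega)] at a1 ⊢
      omega)
    rcases key with hk1 | hk1
    · exact Finset.image_eq_empty.1 hk1
    · exfalso
      have : c ∈ S.image (fun j => x + j) := by rw [hk1]; exact mem_range.2 (by omega)
      obtain ⟨j, hj, hjc⟩ := Finset.mem_image.1 this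
      apply hp
      rw [← hjc]
      simpa using hj
  have shift : ∀ (ω' : ℕ → ℕ), Arch (m + k) ω' →
      (∀ i, x ≤ i → i < x + 2 * k → x ≤ ω' i ∧ ω' i < x + 2 * k) → ∀ j : ℕ,
      (if outer x k ω' j < x then outer x k ω' j else outer x k ω' j + 2 * k) =
        ω' (if j < x then j else j + 2 * k) := by
    intro ω' hω' hω'c j
    have h2 : ω' (if j < x then j else j + 2 * k) < x ∨
        x + 2 * k ≤ ω' (if j < x then j else j + 2 * k) := by
      refine out_closed hω' hω'c hx ?_
      split_ifs <;> omega
    unfold outer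
    rcases h2 with h3 | h3
    · rw [if_pos h3, if_pos h3]
    · simp only [if_neg (show ¬ ω' (if j < x then j else j + 2 * k) < x by omega)]
      rw [if_neg (by omega)]; omega
  have hAc : Conn m (outer x k s0) (outer x k τ) := by
    refine conn_of_point hA1 hA2 x ?_
    intro S hS hp
    have hpa : d + 1 ∉ S.image (fun j => if j < x then j else j + 2 * k) := by
      intro hmem
      obtain ⟨j, hj, hjd⟩ := Finset.mem_image.1 hmem
      have hjd' : (if j < x then j else j + 2 * k) = d + 1 := hjd
      have : j = x := by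
        split_ifs at hjd' <;> omega
      rw [this] at hj
      exact hp hj
    have hs0cl : ∀ i ∈ S.image (fun j => if j < x then j else j + 2 * k),
        s0 i ∈ S.image (fun j => if j < x then j else j + 2 * k) := by
      intro i hi
      obtain ⟨j, hj, rfl⟩ := Finset.mem_image.1 hi
      exact Finset.mem_image.2 ⟨_, (hS j hj).2.1, shift s0 hs0arch hcl1 j⟩
    have hpb : b ∉ S.image (fun j => if j < x then j else j + 2 * k) := by
      intro hmem
      have := hs0cl b hmem
      rw [Rb] at this
      exact hpa this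
    have key := hconn (S.image (fun j => if j < x then j else j + 2 * k)) (by
      intro i hi
      have hi2 := hs0cl i hi
      obtain ⟨j, hj, hji'⟩ := Finset.mem_image.1 hi
      have hji : (if j < x then j else j + 2 * k) = i := hji'
      have hjm := (hS j hj).1
      have hrange : i < 2 * (m + k) ∧ (i < x ∨ x + 2 * k ≤ i) := by
        split_ifs at hji <;> omega
      refine ⟨hrange.1, ?_, ?_⟩
      · rw [← Ro i (by omega) (by omega) (by rintro rfl; exact hpa hi)
          (by rintro rfl; exact hpb hi)]
        exact hi2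
      · rw [← hji]
        exact Finset.mem_image.2 ⟨_, (hS j hj).2.2, shift τ hτ hcl2 j⟩)
    rcases key with hk1 | hk1
    · exact Finset.image_eq_empty.1 hk1
    · exfalso
      apply hpa
      rw [hk1]
      exact mem_range.2 (by omega)
  refine ⟨k, m, (outer x k s0, outer x k τ), (inner x k s0, inner x k τ), by omega, by omega, rfl,
    hd, ⟨hA1, hA2, hAc⟩, ⟨hB1, hB2, hBc⟩, by omega, ?_, ?_⟩
  · have := shift s0 hs0arch hcl1 x
    rw [if_neg (lt_irrefl x), show x + 2 * k = d + 1 by omega, Ra] at this
    simp only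
    split_ifs at this <;> omega
  · unfold glue
    simp only
    rw [g1, g2, ← hd, hsur]

end Pool.Agent.Helper976.Meander
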