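import Pool.Agent.Helper976_Meander.Part4

/-!
# Cut intervals of a gluing
-/

namespace Pool.Agent.Helper976.Meander

open Finset

/-- cut intervals do not overlap properly -/
theorem cut_overlap {N : ℕ} {σ τ : ℕ → ℕ} (hσ : Arch N σ) (hτ : Arch N τ)
    (hc : Conn N σ τ) {x d x' d' : ℕ} (h : Cut N σ τ x d)
    (h' : Cut N σ τ x' d') (hx : x < x') (hx' : x' ≤ d) (hd : d < d') : False := by
  obtain ⟨h1, h2, h3, h4, c, hc1, hc2, hc3, hc4⟩ := h
  obtain ⟨k1, k2, k3, k4, c', kc1, kc2, kc3, kc4⟩ := h'
  have hτc : ∀ i ∈ Ico x x', τ i ∈ Ico x x' ∧ τ i ≠ i ∧ τ (τ i) = i := by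
    intro i hi
    have hi' := mem_Ico.1 hi
    have hiN : i < 2 * N := by omega
    have a1 := h3 i hi'.1 (by omega)
    have hinv := hτ.inv i hiN
    refine ⟨mem_Ico.2 ⟨a1.1, ?_⟩, hτ.ne i hiN, hinv⟩
    by_contra hge
    have := k3 (τ i) (by omega) (by omega)
    omega
  have hσc : ∀ i ∈ Ico x x', i ≠ c → σ i ∈ Ico x x' := by
    intro i hi hic
    have hi' := mem_Ico.1 hi
    have hiN : i < 2 * N := by omega
    have a1 := hc4 i hi'.1 (by omega) hic
    refine mem_Ico.2 ⟨a1.1, ?_⟩
    by_contra hge
    have hinv := hσ.inv i hiN
    by_cases he : σ i = c'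
    · rw [he] at hinv; omega
    · have := kc4 (σ i) (by omega) (by omega) he
      omega
  by_cases hcO : c ∈ Ico x x'
  · have e1 : Even (Ico x x').card := even_card_of_involution _ τ hτc
    have e2 : Even ((Ico x x').erase c).card := by
      refine even_card_of_involution _ σ ?_
      intro i hi
      have hi1 := Finset.mem_of_mem_erase hi
      have hi2 := Finset.ne_of_mem_erase hi
      have hi' := mem_Ico.1 hi1
      have hiN : i < 2 * N := by omega
      refine ⟨Finset.mem_erase.2 ⟨?_, hσc i hi1 hi2⟩, hσ.ne i hiN, hσ.inv i hiN⟩
      intro he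
      have := hσ.inv i hiN
      rw [he] at this
      omega
    rw [Finset.card_erase_of_mem hcO] at e2
    have hpos : 0 < (Ico x x').card := Finset.card_pos.2 ⟨c, hcO⟩
    rcases e1 with ⟨r, hr⟩
    rcases e2 with ⟨s, hs⟩
    omega
  · have key := hc (Ico x x') (by
      intro i hi
      have hi' := mem_Ico.1 hi
      refine ⟨by omega, hσc i hi ?_, (hτc i hi).1⟩
      rintro rfl
      exact hcO hi)
    rcases key with hk | hk
    · have : x ∈ Ico x x' := mem_Ico.2 ⟨le_rfl, hx⟩
      rw [hk] at this
      simp at this
    · have : d ∈ Ico x x' := by rw [hk]; exact mem_range.2 (by omega)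
      have := mem_Ico.1 this
      omega

section
variable {x m k : ℕ} {A B : (ℕ → ℕ) × (ℕ → ℕ)}

theorem cut_glue_cases (hk : 0 < k) (hA : Meander m A) (hB : Meander k B) (hx : x < 2 * m)
    (hx2 : x < A.1 x) {y e : ℕ} (h : Cut (m + k) (glue x k A B).1 (glue x k A B).2 y e) :
    e = x + 2 * k - 1 ∨ (x ≤ e ∧ ∃ y', Cut k B.1 B.2 y' (e - x)) ∨
      (e < x ∧ ∃ y', Cut m A.1 A.2 y' e) ∨
      (x + 2 * k ≤ e ∧ x ≤ e - 2 * k ∧ ∃ y', Cut m A.1 A.2 y' (e - 2 * k)) := by
  have hG := glue_meander hk hA hB hx hx2
  have hJ := glue_cut hk hA hB hx hx2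
  have c1 := s0_d (x := x) (A := A) hk hB
  have a1 := s0_a (k := k) (B := B) hk hx2
  have hC := ins_arch (x := x) (k := k) (by omega) hA.up hB.up
  have hAx := hA.up.lt x hx
  have hAxi := hA.up.inv x hx
  have over1 : x < y → y ≤ x + 2 * k - 1 → x + 2 * k - 1 < e → False := fun h1 h2 h3 =>
    cut_overlap hG.up hG.down hG.conn hJ h h1 h2 h3
  have over2 : y < x → x ≤ e → e < x + 2 * k - 1 → False := fun h1 h2 h3 =>
    cut_overlap hG.up hG.down hG.conn h hJ h1 h2 h3
  simp only [glue] at h hG hJ
  set s0 := ins x k A.1 B.1 with hs0
  set t0 := ins x k A.2 B.2 with ht0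
  obtain ⟨d, hd⟩ : ∃ d, d = x + 2 * k - 1 := ⟨_, rfl⟩
  rw [← hd] at h hG hJ c1 a1 over1 over2 ⊢
  have hGi := hG.up.inv d (by omega)
  have Sd : sur d s0 d = d + 1 := sur_d
  have Sa : sur d s0 (d + 1) = d := sur_a
  have Sc : sur d s0 (s0 d) = s0 (d + 1) := sur_c (by omega) (by omega)
  have Sb : sur d s0 (s0 (d + 1)) = s0 d := sur_b (by omega) (by omega) (by omega)
  have hcinv := hC.inv d (by omega)
  have hbinv := hC.inv (d + 1) (by omega)
  obtain ⟨-, -, -, -, -⟩ := id hJ
  obtain ⟨h1, h2, h3, h4, c', kc1, kc2, kc3, kc4⟩ := h
  have So : ∀ i, i ≠ d → i ≠ d + 1 → i ≠ s0 d → i ≠ s0 (d + 1) → sur d s0 i = s0 i :=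
    fun i i1 i2 i3 i4 => sur_other i1 i2 i3 i4
  -- `e` is none of the special points except possibly `d`
  have hee := hG.up.inv e (by omega)
  simp only at hee
  rw [h4] at hee
  by_cases hed : e = d
  · left; exact hed
  have he1 : e ≠ d + 1 := by rintro rfl; rw [Sa] at h4; omega
  have he2 : e ≠ s0 d := by intro he; rw [he, Sc] at h4; omega
  have he3 : e ≠ s0 (d + 1) := by intro he; rw [he, Sb] at h4; omega
  have he4 : s0 e = e + 1 := by rw [← So e hed he1 he2 he3]; exact h4
  have hed2 : e + 1 ≠ d := by intro he; rw [he, Sd] at hee; omega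
  have hb0 : s0 (d + 1) = A.1 x + 2 * k := a1
  right
  have shA : ∀ j, s0 (if j < x then j else j + 2 * k) =
      if A.1 j < x then A.1 j else A.1 j + 2 * k := by
    intro j
    by_cases hj : j < x
    · rw [if_pos hj, hs0, ins_left hj]
    · rw [if_neg hj, hs0, ins_right (by omega), show j + 2 * k - 2 * k = j by omega]
  have thA : ∀ j, t0 (if j < x then j else j + 2 * k) =
      if A.2 j < x then A.2 j else A.2 j + 2 * k := by
    intro j
    by_cases hj : j < x
    · rw [if_pos hj, ht0, ins_left hj]
    · rw [if_neg hj, ht0, ins_right (by omega), show j + 2 * k - 2 * k = j by omega]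
  rcases Nat.lt_or_ge e x with hex | hex
  · -- `e < x`
    right; left
    refine ⟨hex, y, h1, ?_, ?_, ?_, c', kc1, kc2, ?_, ?_⟩
    · omega
    · intro i i1 i2
      have := h3 i i1 i2
      rw [ht0, ins_left (by omega)] at this
      split_ifs at this <;> omega
    · rw [hs0, ins_left hex] at he4
      split_ifs at he4 <;> omega
    · have hc'2 : sur d s0 c' = s0 c' := So c' (by omega) (by omega) (by omega) (by omega)
      rw [hc'2, hs0, ins_left (by omega)] at kc3
      have hne : A.1 c' ≠ x := by
        intro he
        have := hA.up.inv c' (by omega)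
        rw [he] at this
        omega
      split_ifs at kc3 <;> omega
    · intro i i1 i2 i3
      have := kc4 i i1 i2 i3
      rw [So i (by omega) (by omega) (by omega) (by omega), hs0, ins_left (by omega)] at this
      split_ifs at this <;> omega
  rcases Nat.lt_or_ge e d with hed3 | hed3
  · -- inside the block
    left
    have hyx : x ≤ y := by
      by_contra hlt
      exact over2 (by omega) hex hed3
    refine ⟨hex, y - x, by omega, by omega, ?_, ?_, c' - x, by omega, by omega, ?_, ?_⟩
    · intro i i1 i2
      have := h3 (x + i) (by omega) (by omega)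
      rw [ht0, ins_mid (by omega) (by omega), show x + i - x = i by omega] at this
      omega
    · rw [hs0, ins_mid (by omega) (by omega)] at he4
      omega
    · by_cases hcc : c' = s0 d
      · have h7 : s0 c' = d := by rw [hcc]; exact hcinv
        rw [hs0, ins_mid (by omega) (by omega)] at h7
        omega
      · rw [So c' (by omega) (by omega) hcc (by omega), hs0, ins_mid (by omega) (by omega)] at kc3
        omega
    · intro i i1 i2 i3
      have := kc4 (x + i) (by omega) (by omega) (by omega)
      have hne : x + i ≠ s0 d := by
        intro he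
        rw [he, Sc] at this
        omega
      rw [So (x + i) (by omega) (by omega) hne (by omega), hs0, ins_mid (by omega) (by omega),
        show x + i - x = i by omega] at this
      omega
  · -- to the right of the block
    right; right
    have hge : x + 2 * k + 1 ≤ e := by omega
    have hy : y ≤ x ∨ d < y := by
      by_contra hcon
      exact over1 (by omega) (by omega) (by omega)
    -- the image of `e`
    have he5 : A.1 (e - 2 * k) = e - 2 * k + 1 := by
      rw [hs0, ins_right (by omega)] at he4
      split_ifs at he4 <;> omega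
    have hca : c' ≠ d + 1 := by
      intro he; rw [he, Sa] at kc3; omega
    have hcd : c' ≠ d := by
      intro he; rw [he, Sd] at kc3; omega
    have hcb : c' ≠ s0 (d + 1) := by
      intro he; rw [he, Sb] at kc3; omega
    rcases hy with hy | hy
    · -- the interval contains the block
      refine ⟨by omega, by omega, y, by omega, by omega, ?_, he5, ?_⟩
      · intro j i1 i2
        have h7 := h3 (if j < x then j else j + 2 * k) (by split_ifs <;> omega)
          (by split_ifs <;> omega)
        rw [thA j] at h7
        split_ifs at h7 <;> omega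
      · by_cases hin : x ≤ c' ∧ c' < d
        · -- the second outgoing arc starts in the block
          have hcc : c' = s0 d := by
            by_contra hne
            have h8 := ins_mid_mem (α := A.1) (x := x) hB.up hin.1
              (show c' < x + 2 * k by omega)
            rw [So c' hcd hca hne hcb] at kc3
            rw [← hs0] at h8
            omega
          rw [hcc, Sc, hb0] at kc3
          refine ⟨x, hy, by omega, by omega, ?_⟩
          intro j i1 i2 i3
          have h7 := kc4 (if j < x then j else j + 2 * k) (by split_ifs <;> omega)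
            (by split_ifs <;> omega) (by split_ifs <;> omega)
          rw [So _ (by split_ifs <;> omega) (by split_ifs <;> omega) (by split_ifs <;> omega)
            (by rw [hb0]; split_ifs <;> omega), shA j] at h7
          split_ifs at h7 <;> omega
        · have hbin : s0 (d + 1) < e := by
            have h8 := kc4 (s0 d) (by omega) (by omega) (by omega)
            rw [Sc] at h8
            exact h8.2
          obtain ⟨c'', hc''⟩ : ∃ c'', c' = if c'' < x then c'' else c'' + 2 * k := by
            by_cases hcx : c' < x
            · exact ⟨c', by rw [if_pos hcx]⟩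
            · exact ⟨c' - 2 * k, by rw [if_neg (by omega)]; omega⟩
          rw [So c' hcd hca (by omega) hcb, hc'', shA] at kc3
          refine ⟨c'', ?_, ?_, ?_, ?_⟩
          · split_ifs at hc'' <;> omega
          · split_ifs at hc'' <;> omega
          · split_ifs at kc3 <;> omega
          · intro j i1 i2 i3
            by_cases hjx : j = x
            · subst hjx
              omega
            by_cases hjb : j = A.1 x
            · rw [hjb, hAxi]; omega
            have h7 := kc4 (if j < x then j else j + 2 * k) (by split_ifs <;> omega)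
              (by split_ifs <;> omega) (by
                rw [hc'']
                split_ifs <;> omega)
            rw [So _ (by split_ifs <;> omega) (by split_ifs <;> omega) (by split_ifs <;> omega)
              (by rw [hb0]; split_ifs <;> omega), shA j] at h7
            split_ifs at h7 <;> omega
    · -- the interval is to the right of the block
      have hya : y ≠ d + 1 := by
        intro he
        have h7 := kc4 y le_rfl h1 (by omega)
        rw [he, Sa] at h7
        omega
      have hbout : s0 (d + 1) < y ∨ e < s0 (d + 1) := by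
        by_contra hcon
        have h7 := kc4 (s0 (d + 1)) (by omega) (by omega) (by omega)
        rw [Sb] at h7
        omega
      refine ⟨by omega, by omega, y - 2 * k, by omega, by omega, ?_, he5, c' - 2 * k, by omega,
        by omega, ?_, ?_⟩
      · intro j i1 i2
        have h7 := h3 (j + 2 * k) (by omega) (by omega)
        have h8 := thA j
        rw [if_neg (show ¬ j < x by omega)] at h8
        rw [h8] at h7
        split_ifs at h7 <;> omega
      · have h8 := shA (c' - 2 * k)
        rw [if_neg (show ¬ c' - 2 * k < x by omega), show c' - 2 * k + 2 * k = c' by omega] at h8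
        rw [So c' hcd hca (by omega) hcb, h8] at kc3
        split_ifs at kc3 <;> omega
      · intro j i1 i2 i3
        have h7 := kc4 (j + 2 * k) (by omega) (by omega) (by omega)
        have h8 := shA j
        rw [if_neg (show ¬ j < x by omega)] at h8
        rw [So (j + 2 * k) (by omega) (by omega) (by omega) (by omega), h8] at h7
        split_ifs at h7 <;> omega

/-- the number of cut intervals of a gluing -/
theorem c_glue_le (hk : 0 < k) (hA : Meander m A) (hB : Meander k B) (hx : x < 2 * m)
    (hx2 : x < A.1 x) : c (m + k) (glue x k A B) ≤ c m A + c k B + 1 := by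
  classical
  have hsub : R (m + k) (glue x k A B) ⊆ insert (x + 2 * k - 1)
      ((R k B).image (fun j => x + j) ∪
        (R m A).image (fun j => if j < x then j else j + 2 * k)) := by
    intro e he
    obtain ⟨y, hy⟩ := mem_R.1 he
    rw [Finset.mem_insert, Finset.mem_union]
    rcases cut_glue_cases hk hA hB hx hx2 hy with h | ⟨h1, h2⟩ | ⟨h1, h2⟩ | ⟨h0, h1, h2⟩
    · left; exact h
    · right; left
      exact Finset.mem_image.2 ⟨e - x, mem_R.2 h2, by omega⟩
    · right; right
      exact Finset.mem_image.2 ⟨e, mem_R.2 h2, by simp only [if_pos h1]⟩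
    · right; right
      exact Finset.mem_image.2 ⟨e - 2 * k, mem_R.2 h2, by
        simp only [if_neg (show ¬ e - 2 * k < x by omega)]; omega⟩
  have h1 := Finset.card_le_card hsub
  have h2 := Finset.card_insert_le (x + 2 * k - 1) ((R k B).image (fun j => x + j) ∪
        (R m A).image (fun j => if j < x then j else j + 2 * k))
  have h3 := Finset.card_union_le ((R k B).image (fun j => x + j))
        ((R m A).image (fun j => if j < x then j else j + 2 * k))
  have h4 : ((R k B).image (fun j => x + j)).card ≤ (R k B).card := Finset.card_image_le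
  have h5 : ((R m A).image (fun j => if j < x then j else j + 2 * k)).card ≤ (R m A).card :=
    Finset.card_image_le
  unfold c
  omega

end

end Pool.Agent.Helper976.Meander
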