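import Pool.Agent.Helper976_Meander.Part7
import Pool.Agent.Helper976_Meander.Part8

/-!
# First and second moment of the number of cut intervals
-/

namespace Pool.Agent.Helper976.Meander

open Finset

theorem gmap_surj {N : ℕ} {r : Σ _ : (ℕ → ℕ) × (ℕ → ℕ), ℕ}
    (hr : r ∈ (F N).sigma (fun p => R N p)) : ∃ q ∈ G N, gmap q = r := by
  obtain ⟨C, d⟩ := r
  obtain ⟨h1, h2⟩ := Finset.mem_sigma.1 hr
  obtain ⟨x, hx⟩ := mem_R.1 h2
  obtain ⟨k, m, A, B, hk, hm, hN, hd, hA, hB, hx1, hx2, hC⟩ := exists_glue (mem_F.1 h1) hx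
  refine ⟨⟨k, ⟨A, x⟩, B⟩, ?_, ?_⟩
  · rw [mem_G]
    have e : N - k = m := by omega
    simp only
    rw [e]
    exact ⟨⟨hk, by omega⟩, ⟨hA, hx1, hx2⟩, hB⟩
  · unfold gmap
    simp only at hC ⊢
    rw [← hC, ← hd]

/-- sums over cut intervals are sums over gluings -/
theorem sum_cut (N : ℕ) (φ : (ℕ → ℕ) × (ℕ → ℕ) → ℕ) :
    ∑ p ∈ F N, c N p * φ p = ∑ q ∈ G N, φ (gmap q).1 := by
  have h1 : ∑ r ∈ (F N).sigma (fun p => R N p), φ r.1 = ∑ p ∈ F N, c N p * φ p := by
    rw [Finset.sum_sigma]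
    refine Finset.sum_congr rfl ?_
    intro p _
    show ∑ s ∈ R N p, φ p = c N p * φ p
    rw [Finset.sum_const, smul_eq_mul]
    rfl
  rw [← h1]
  symm
  refine Finset.sum_bij (fun q _ => gmap q) (fun q hq => gmap_mem hq)
    (fun q hq q' hq' h => gmap_injOn N hq hq' h) ?_ (fun q _ => rfl)
  intro r hr
  obtain ⟨q, hq, h⟩ := gmap_surj hr
  exact ⟨q, hq, h⟩

/-- total number of cut intervals of the meanders of order `N` -/
noncomputable def K (N : ℕ) : ℕ := ∑ p ∈ F N, c N p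

/-- sum of the squares of the numbers of cut intervals -/
noncomputable def Q (N : ℕ) : ℕ := ∑ p ∈ F N, c N p * c N p

theorem K_eq (N : ℕ) : K N = ∑ b ∈ Ico 1 N, (N - b) * M (N - b) * M b := by
  have h := sum_cut N (fun _ => 1)
  simp only [mul_one, Finset.sum_const, smul_eq_mul] at h
  unfold K
  rw [h, card_G]

theorem Q_le (N : ℕ) : Q N ≤ ∑ b ∈ Ico 1 N, ((N - b) * K (N - b) * M b +
    (N - b) * M (N - b) * K b + (N - b) * M (N - b) * M b) := by
  unfold Q
  rw [sum_cut N (c N)]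
  have h1 : ∑ q ∈ G N, c N (gmap q).1 ≤ ∑ q ∈ G N, (c (N - q.1) q.2.1.1 + c q.1 q.2.2 + 1) := by
    refine Finset.sum_le_sum ?_
    intro q hq
    obtain ⟨⟨h1, h2⟩, ⟨h3, h4, h5⟩, h6⟩ := mem_G.1 hq
    have e : N - q.1 + q.1 = N := by omega
    have := c_glue_le (by omega) h3 h6 h4 h5
    rw [e] at this
    exact this
  refine h1.trans (le_of_eq ?_)
  unfold G
  rw [Finset.sum_sigma]
  refine Finset.sum_congr rfl ?_
  intro b _
  simp only
  rw [Finset.sum_product]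
  have h2 : ∀ n : ℕ, ∀ ψ : (ℕ → ℕ) × (ℕ → ℕ) → ℕ, ∑ t ∈ T n, ψ t.1 = n * ∑ p ∈ F n, ψ p := by
    intro n ψ
    unfold T
    rw [Finset.sum_sigma, Finset.mul_sum]
    refine Finset.sum_congr rfl ?_
    intro p hp
    simp only
    rw [Finset.sum_const, smul_eq_mul]
    congr 1
    exact (mem_F.1 hp).up.card_open
  have h3 : ∀ t ∈ T (N - b), ∑ B ∈ F b, (c (N - b) t.1 + c b B + 1) =
      M b * c (N - b) t.1 + (K b + M b) := by
    intro t _
    rw [Finset.sum_add_distrib, Finset.sum_add_distrib, Finset.sum_const, Finset.sum_const,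
      smul_eq_mul, smul_eq_mul]
    unfold K M
    ring
  rw [Finset.sum_congr rfl h3, Finset.sum_add_distrib, Finset.sum_const, card_T, smul_eq_mul,
    ← Finset.mul_sum, h2 (N - b) (c (N - b))]
  unfold K
  ring

theorem K_le (N : ℕ) : K N ≤ N * M N := by
  rw [K_eq]; exact sum_le N

theorem Q_le_sq (N : ℕ) : Q N ≤ N ^ 2 * M N := by
  unfold Q
  have : ∑ p ∈ F N, c N p * c N p ≤ ∑ _p ∈ F N, N ^ 2 := by
    refine Finset.sum_le_sum ?_
    intro p hp
    have := c_le (mem_F.1 hp)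
    rw [sq]
    exact Nat.mul_le_mul this this
  rw [Finset.sum_const, smul_eq_mul] at this
  unfold M
  rw [mul_comm]
  exact this

/-- Cauchy–Schwarz at one order -/
theorem K_sq_le (N : ℕ) : K N ^ 2 ≤ M N * Q N := by
  unfold K Q M
  have := sq_sum_le_card_mul_sum_sq (s := F N) (f := fun p => c N p)
  simpa [sq] using this

end Pool.Agent.Helper976.Meander
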